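import Pool.Agent.N201.SQ.Cov
import Pool.Agent.N542.PU.Cover2

set_option autoImplicit false
set_option linter.unusedSectionVars false

/-! # The covering sieve with one cost for each colour, for an arbitrary family

`Pool.Agent.N201.SQ.cov_core` (helper201) with the integers of an interval replaced by an arbitrary family. -/

namespace Pool.Agent.N542.PV

open Finset Filter
open Pool.Agent.H378R2.QG
open Pool.Agent.H256R2.SC (Col supp qq emb emb_mem emb_surj mem_supp prod_nu1 nu1 Asum ev_facts)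
open Pool.Agent.H474R2.PG (TT TT_mem TT_prod sT sT_eq scales')
open Pool.Agent.N201.SQ
open Pool.Agent.N542.PU (colh colh_eq event_iff')

open scoped Classical

theorem num_fin2 {L u z N Err : ℝ} {n J : ℕ} (hL : 1000 ≤ L) (hu0 : 0 ≤ u)
    (hu : u ≤ Real.exp (L / 100)) (hn1 : (n:ℝ) + 1 ≤ z) (hzJ : z ^ J ≤ Real.exp (45 * L / 1000))
    (hN : 0 < N) (hErr : Err ≤ N * Real.exp (-(2 / 5 * L))) :
    Err * (9 * (Real.exp (L / 40)) ^ 4 * (1 + u * ((n:ℝ) + 1) ^ J)) < N / 8 := by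
  have hLpos : 0 < L := by linarith
  have hn0 : (0:ℝ) ≤ (n:ℝ) + 1 := add_nonneg (Nat.cast_nonneg n) zero_le_one
  have hnJ0 : (0:ℝ) ≤ ((n:ℝ) + 1) ^ J := pow_nonneg hn0 J
  have h1 : ((n:ℝ) + 1) ^ J ≤ Real.exp (45 * L / 1000) :=
    (pow_le_pow_left₀ hn0 hn1 J).trans hzJ
  have h2 : u * ((n:ℝ) + 1) ^ J ≤ Real.exp (L / 100) * Real.exp (45 * L / 1000) :=
    mul_le_mul hu h1 hnJ0 (Real.exp_pos _).le
  have h3 : (1:ℝ) ≤ Real.exp (55 * L / 1000) := Real.one_le_exp (by positivity)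
  have h4 : 1 + u * ((n:ℝ) + 1) ^ J ≤ 2 * Real.exp (55 * L / 1000) := by
    have : Real.exp (L / 100) * Real.exp (45 * L / 1000) = Real.exp (55 * L / 1000) := by
      rw [← Real.exp_add]; congr 1; ring
    linarith
  have h5 : (Real.exp (L / 40)) ^ 4 = Real.exp (L / 10) := by
    rw [← Real.exp_nat_mul]; congr 1; push_cast; ring
  have h6 : Err * (9 * (Real.exp (L / 40)) ^ 4 * (1 + u * ((n:ℝ) + 1) ^ J)) ≤
      (N * Real.exp (-(2 / 5 * L))) * (9 * Real.exp (L / 10) * (2 * Real.exp (55 * L / 1000))) := by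
    rw [h5]
    have h50 : (0:ℝ) ≤ 9 * Real.exp (L / 10) :=
      mul_nonneg (by norm_num) (Real.exp_pos _).le
    have h51 : (0:ℝ) ≤ 1 + u * ((n:ℝ) + 1) ^ J := add_nonneg zero_le_one (mul_nonneg hu0 hnJ0)
    exact mul_le_mul hErr (mul_le_mul_of_nonneg_left h4 h50) (mul_nonneg h50 h51)
      (mul_nonneg hN.le (Real.exp_pos _).le)
  have h7 : (N * Real.exp (-(2 / 5 * L))) * (9 * Real.exp (L / 10) * (2 * Real.exp (55 * L / 1000))) =
      N * (18 * Real.exp (-(245 * L / 1000))) := by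
    have : Real.exp (-(2 / 5 * L)) * Real.exp (L / 10) * Real.exp (55 * L / 1000) =
        Real.exp (-(245 * L / 1000)) := by
      rw [← Real.exp_add, ← Real.exp_add]; congr 1; ring
    calc _ = N * (18 * (Real.exp (-(2 / 5 * L)) * Real.exp (L / 10) * Real.exp (55 * L / 1000))) := by
          ring
      _ = _ := by rw [this]
  have h8 : 18 * Real.exp (-(245 * L / 1000)) < 1 / 8 := by
    have e2 : (144:ℝ) < Real.exp (245 * L / 1000) := by
      have := Real.add_one_le_exp (245 * L / 1000)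
      linarith
    rw [Real.exp_neg, ← div_eq_mul_inv, div_lt_div_iff₀ (Real.exp_pos _) (by norm_num)]
    linarith
  calc _ ≤ _ := h6
    _ = _ := h7
    _ < N * (1 / 8) := mul_lt_mul_of_pos_left h8 hN
    _ = N / 8 := by ring

theorem cov_gen (B : ℕ) (hB : 2 ≤ B) : ∃ L₀ : ℝ, ∀ L : ℝ, L₀ ≤ L → ∀ z : ℝ, 0 < z →
    L / (2000 * Real.log L) ≤ Real.log z → Real.log z ≤ L / (1000 * Real.log L) →
    ∀ (κ : Type) [Fintype κ] [DecidableEq κ] [Nonempty κ] (g : ℕ → κ → ℝ) (K : κ → ℝ),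
    (∀ p k, 0 ≤ g p k) → (∀ p ∈ PZ (L ^ B) z, ∀ k, g p k ≤ 2 / (p : ℝ)) →
    (∀ k, ∃ h, Hyp (fun i => ((emb (PZ (L ^ B) z) i : ℕ) : ℝ))
      (fun i => g (emb (PZ (L ^ B) z) i) k) h z (K k)) →
    ∑ k, K k ≤ L / 400 → (Fintype.card κ : ℝ) ≤ L / 8 →
    ∀ (α : Type) [DecidableEq α] (hit : ℕ → α → κ → Prop),
    (∀ p ∈ PZ (L ^ B) z, ∀ a k l, hit p a k → hit p a l → k = l) →
    ∀ (𝒜 : Finset α) (N Err : ℝ), 0 < N → 0 ≤ Err → Err ≤ N * Real.exp (-(2 / 5 * L)) →
    (∀ (T : Finset ℕ) (s : ℕ → κ), (∀ p ∈ T, p ∈ PZ (L ^ B) z) →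
      (∏ p ∈ T, (p : ℝ)) ≤ Real.exp (L / 10) →
      |((𝒜.filter (fun a => ∀ p ∈ T, hit p a (s p))).card : ℝ) -
        N * ∏ p ∈ T, g p (s p)| ≤ Err) →
    ∃ a ∈ 𝒜, ∀ k : κ, ∃ p ∈ PZ (L ^ B) z, hit p a k := by
  obtain ⟨CM₀, hM₀⟩ := Pool.Agent.Helper256.KM.mertens_inv
  obtain ⟨L₀, hL₀⟩ := ev_facts 1 (max CM₀ 0)
  refine ⟨L₀, ?_⟩
  intro L hLL z hzpos hlz2 hlz1 κ _ _ _ g K hg0' hg2 hprof hKsum huL α _ hit huniq 𝒜 N Err hN hErr0 hErr hcount
  obtain ⟨f1, f2, f3, f4, f5, f6⟩ := hL₀ L hLL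
  have hCM0 : 0 ≤ max CM₀ 0 := le_max_right _ _
  obtain ⟨l, hl⟩ : ∃ l, l = Real.log L := ⟨_, rfl⟩
  rw [← hl] at f1 f2 f3 f6 hlz1 hlz2
  have hl0 : 0 < l := by linarith
  have hLpos : 0 < L := by linarith
  have hLexp : L = Real.exp l := by rw [hl]; exact (Real.exp_log hLpos).symm
  have hll : l ≤ L / (2000 * l) := by
    rw [le_div_iff₀ (by positivity)]
    have h1 : L ^ (3 / 10 : ℝ) ≤ L := by
      conv_rhs => rw [← Real.rpow_one L]
      exact Real.rpow_le_rpow_of_exponent_le (by linarith) (by norm_num)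
    nlinarith
  have hlzl : l ≤ Real.log z := hll.trans hlz2
  have hlzpos : 0 < Real.log z := by linarith
  have hzexp : z = Real.exp (Real.log z) := (Real.exp_log hzpos).symm
  have hz1 : 1 < z := by rw [hzexp]; exact Real.one_lt_exp_iff.mpr hlzpos
  have hlzL : Real.log z ≤ L / 10000 := by
    refine hlz1.trans ?_
    apply div_le_div_of_nonneg_left hLpos.le (by norm_num)
    linarith
  have hz3 : 3 ≤ z := by
    rw [hzexp]
    have := Real.add_one_le_exp (Real.log z)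
    linarith
  -- the sieving primes
  obtain ⟨PP, hPP⟩ : ∃ PP, PP = PZ (L ^ B) z := ⟨_, rfl⟩
  rw [← hPP] at hg2 hprof huniq hcount ⊢
  have hLB : L ^ 2 ≤ L ^ B := pow_le_pow_right₀ (by linarith) hB
  have hPPmem : ∀ p ∈ PP, p.Prime ∧ L ^ 2 < (p:ℝ) ∧ (p:ℝ) ≤ z := by
    intro p hp
    rw [hPP] at hp
    unfold PZ at hp
    rw [Finset.mem_filter, Finset.mem_Icc] at hp
    refine ⟨hp.2.1, lt_of_le_of_lt hLB hp.2.2, ?_⟩
    calc (p:ℝ) ≤ (⌊z⌋₊ : ℝ) := by exact_mod_cast hp.1.2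
      _ ≤ z := Nat.floor_le hzpos.le
  have hn1 : (PP.card:ℝ) + 1 ≤ z := by
    have h1 : PP ⊆ Finset.Icc 2 ⌊z⌋₊ := by
      intro p hp
      have hp' := hp
      rw [hPP] at hp'
      unfold PZ at hp'
      rw [Finset.mem_filter, Finset.mem_Icc] at hp'
      rw [Finset.mem_Icc]
      exact ⟨hp'.2.1.two_le, hp'.1.2⟩
    have h2 := Finset.card_le_card h1
    rw [Nat.card_Icc] at h2
    have h3 : 1 ≤ ⌊z⌋₊ := Nat.le_floor (by
      push_cast
      exact hz1.le)
    have h4 : PP.card + 1 ≤ ⌊z⌋₊ := by omega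
    calc (PP.card:ℝ) + 1 ≤ (⌊z⌋₊ : ℝ) := by exact_mod_cast h4
      _ ≤ z := Nat.floor_le hzpos.le
  obtain ⟨g', hg'⟩ : ∃ g' : Fin PP.card → κ → ℝ, g' = fun i => g (emb PP i) := ⟨_, rfl⟩
  have hg'i : ∀ i k, g' i k = g (emb PP i) k := fun i k => by rw [hg']
  have hPy : ∀ i : Fin PP.card, L ^ 2 < ((emb PP i : ℕ) : ℝ) :=
    fun i => (hPPmem _ (emb_mem PP i)).2.1
  have hPz : ∀ i : Fin PP.card, ((emb PP i : ℕ) : ℝ) ≤ z := fun i => (hPPmem _ (emb_mem PP i)).2.2
  have hL2 : 1000000 ≤ L ^ 2 := by nlinarith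
  have hP1 : ∀ i : Fin PP.card, 1 < ((emb PP i : ℕ) : ℝ) := fun i => by linarith [hPy i]
  have hP0 : ∀ i : Fin PP.card, 0 < ((emb PP i : ℕ) : ℝ) := fun i => by linarith [hPy i]
  have hg0 : ∀ (i : Fin PP.card) (k : κ), 0 ≤ g' i k := fun i k => by
    rw [hg'i]
    exact hg0' _ _
  have hgP : ∀ (i : Fin PP.card) (k : κ), g' i k ≤ 2 / ((emb PP i : ℕ) : ℝ) := fun i k => by
    rw [hg'i]
    exact hg2 _ (emb_mem PP i) k
  have hgy : ∀ (i : Fin PP.card) (k : κ), g' i k ≤ 2 / L ^ 2 := fun i k => by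
    refine (hgP i k).trans ?_
    exact div_le_div_of_nonneg_left (by norm_num) (by linarith) (hPy i).le
  choose h H using hprof
  have H' : ∀ k, Hyp (fun i => ((emb PP i : ℕ) : ℝ)) (fun i => g' i k) (h k) z (K k) := by
    intro k
    rw [hg']
    exact H k
  obtain ⟨u, hu⟩ : ∃ u, u = (Fintype.card κ : ℝ) := ⟨_, rfl⟩
  have hu0 : 0 ≤ u := by rw [hu]; exact Nat.cast_nonneg _
  rw [← hu] at huL
  -- the sum of the densities
  have hmax : 20 * max CM₀ 0 ≤ l := f2
  have hsumP : ∑ i : Fin PP.card, 1 / ((emb PP i : ℕ) : ℝ) ≤ l + max CM₀ 0 := by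
    have h1 : ∑ i : Fin PP.card, 1 / ((emb PP i : ℕ) : ℝ) = ∑ p ∈ PP, 1 / (p:ℝ) := by
      have : PP = univ.map (emb PP) := by
        ext p
        rw [Finset.mem_map]
        constructor
        · intro hp
          obtain ⟨i, hi⟩ := emb_surj PP hp
          exact ⟨i, Finset.mem_univ _, hi⟩
        · rintro ⟨i, _, rfl⟩
          exact emb_mem PP i
      conv_rhs => rw [this]
      rw [Finset.sum_map]
    rw [h1, hPP, hl]
    exact sum_inv_PZ hM₀ hz3 (by linarith)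
  have hGk : ∀ k : κ, ∑ i, g' i k ≤ 2 * (l + max CM₀ 0) := by
    intro k
    calc ∑ i, g' i k ≤ ∑ i : Fin PP.card, 2 * (1 / ((emb PP i : ℕ) : ℝ)) := by
          apply Finset.sum_le_sum
          intro i _
          have := hgP i k
          have e : 2 * (1 / ((emb PP i : ℕ) : ℝ)) = 2 / ((emb PP i : ℕ) : ℝ) := by ring
          rw [e]
          exact this
      _ = 2 * ∑ i : Fin PP.card, 1 / ((emb PP i : ℕ) : ℝ) := by rw [Finset.mul_sum]
      _ ≤ 2 * (l + max CM₀ 0) := by linarith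
  -- parameters
  obtain ⟨J, hJ⟩ : ∃ J : ℕ, J = 2 * ⌈22 * l⌉₊ := ⟨_, rfl⟩
  have hJ1 : 44 * l ≤ (J:ℝ) := by
    have := Nat.le_ceil (22 * l)
    rw [hJ]; push_cast; linarith
  have hJ2 : (J:ℝ) ≤ 45 * l := by
    have := Nat.ceil_lt_add_one (show 0 ≤ 22 * l by positivity)
    rw [hJ]; push_cast; linarith
  have hJe : Even J := ⟨⌈22 * l⌉₊, by rw [hJ]; ring⟩
  have hQ1 : 1 ≤ Real.exp (L / 40) := Real.one_le_exp (by positivity)
  have hzJ : z ^ J ≤ Real.exp (45 * L / 1000) := by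
    rw [hzexp, ← Real.exp_nat_mul]
    apply Real.exp_le_exp.mpr
    calc (J:ℝ) * Real.log z ≤ (45 * l) * (L / (1000 * l)) :=
          mul_le_mul hJ2 hlz1 hlzpos.le (by positivity)
      _ = 45 * L / 1000 := by field_simp
  -- sizes of supports
  have hL1 : 1 ≤ L := by linarith
  have hδ : ∀ D : Col PP.card κ, qq (fun i => ((emb PP i : ℕ) : ℝ)) D ≤ Real.exp (L / 40) →
      ∀ k, 2 * ∑ i with D i ≠ none, g' i k ≤ 2 / L := by
    intro D hD k
    have h1 : ∑ i with D i ≠ none, g' i k ≤ (supp D).card * (2 / L ^ 2) := by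
      have : ∑ i ∈ supp D, g' i k ≤ ∑ i ∈ supp D, (2 / L ^ 2) :=
        Finset.sum_le_sum (fun i _ => hgy i k)
      rw [Finset.sum_const, nsmul_eq_mul] at this
      exact this
    have h2 := supp_card_le (fun i => ((emb PP i : ℕ) : ℝ)) hLexp hL1 hPy D (L / 40) hD
    have h2' : ((supp D).card : ℝ) ≤ L / 40 := by
      have h2 : 0 ≤ ((supp D).card : ℝ) := Nat.cast_nonneg _
      nlinarith
    have h3 : ((supp D).card : ℝ) * (2 / L ^ 2) ≤ L / 40 * (2 / L ^ 2) :=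
      mul_le_mul_of_nonneg_right h2' (by positivity)
    have h4 : L / 40 * (2 / L ^ 2) = 1 / (20 * L) := by field_simp; norm_num
    have h5 : 1 / (20 * L) ≤ 1 / L := by
      apply one_div_le_one_div_of_le hLpos
      linarith
    have h6 : 2 / L = 2 * (1 / L) := by ring
    rw [h6]
    linarith
  -- the count
  have hevent : ∀ D : Col PP.card κ,
      qq (fun i => ((emb PP i : ℕ) : ℝ)) D ≤ Real.exp (L / 40) ^ 2 * z ^ J →
      |((𝒜.filter (fun a => ∀ i, D i ≠ none → colh PP hit a i = D i)).card : ℝ) -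
        N * nu g' D| ≤ Err := by
    intro D hD
    have hD1 : qq (fun i => ((emb PP i : ℕ) : ℝ)) D ≤ Real.exp (L / 10) := by
      refine hD.trans ?_
      calc Real.exp (L / 40) ^ 2 * z ^ J ≤ Real.exp (L / 40) ^ 2 * Real.exp (45 * L / 1000) :=
            mul_le_mul_of_nonneg_left hzJ (by positivity)
        _ = Real.exp (L / 20 + 45 * L / 1000) := by
            rw [← Real.exp_nat_mul, ← Real.exp_add]
            congr 1
            push_cast
            ring
        _ ≤ Real.exp (L / 10) := Real.exp_le_exp.mpr (by linarith)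
    have h1 : (𝒜.filter (fun a => ∀ i, D i ≠ none → colh PP hit a i = D i)) =
        𝒜.filter (fun a => ∀ p ∈ TT PP D, hit p a (sT PP D p)) := by
      apply Finset.filter_congr
      intro a _
      exact event_iff' huniq D a
    rw [h1]
    have h2 : ∏ p ∈ TT PP D, g p (sT PP D p) = nu g' D := by
      rw [hg']
      exact TT_nu' PP g D
    rw [← h2]
    apply hcount (TT PP D) (sT PP D) (fun p hp => TT_mem hp)
    rw [TT_prod]
    exact hD1
  have hNpos : 0 < N := hN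
  -- apply the core theorem
  obtain ⟨a, ha, hcov⟩ := core (κ := κ) 𝒜 (colh PP hit) H' (Real.exp (L / 40)) (2 / L) 3 N
    Err (2 * (l + max CM₀ 0)) J
    hJe (by norm_num) hNpos hErr0 hQ1 hz1 (fun i => (hP1 i).le) hg0 hPz
    (fun i k => by
      have h1 : (2:ℝ) / L ^ 2 ≤ 1 := by rw [div_le_one (by linarith)]; linarith
      exact (hgy i k).trans h1)
    (fun i k => by
      have h1 : (2:ℝ) / L ^ 2 ≤ 1 / 9 := by
        rw [div_le_div_iff₀ (by linarith) (by norm_num)]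
        linarith
      have := hgy i k
      linarith)
    (fun i => by
      have h0 : ∑ k, g' i k ≤ ∑ k : κ, 2 / L ^ 2 := Finset.sum_le_sum (fun k _ => hgy i k)
      rw [Finset.sum_const, Finset.card_univ, nsmul_eq_mul, ← hu] at h0
      have h1 : u * (2 / L ^ 2) ≤ (L / 8) * (2 / L ^ 2) :=
        mul_le_mul_of_nonneg_right huL (by positivity)
      have h2 : (L / 8) * (2 / L ^ 2) = 1 / (4 * L) := by field_simp; norm_num
      have h3 : 1 / (4 * L) ≤ 1 := by rw [div_le_one (by positivity)]; linarith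
      linarith)
    (by positivity) hGk hδ
    (by
      rw [← hu]
      have : u * (2 / L) ≤ (L / 8) * (2 / L) := mul_le_mul_of_nonneg_right huL (by positivity)
      have e : (L / 8) * (2 / L) = 1 / 4 := by field_simp; norm_num
      linarith)
    (by
      rw [← hu]
      have h1 : ∑ i : Fin PP.card, 1 / ((emb PP i : ℕ) : ℝ) ^ 2 ≤
          (1 / L ^ 2) * ∑ i : Fin PP.card, 1 / ((emb PP i : ℕ) : ℝ) := by
        rw [Finset.mul_sum]
        apply Finset.sum_le_sum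
        intro i _
        have e1 : 1 / ((emb PP i : ℕ) : ℝ) ^ 2 =
            (1 / ((emb PP i : ℕ) : ℝ)) * (1 / ((emb PP i : ℕ) : ℝ)) := by
          have := (hP0 i).ne'
          field_simp
        rw [e1]
        apply mul_le_mul_of_nonneg_right _ (one_div_nonneg.mpr (hP0 i).le)
        exact one_div_le_one_div_of_le (by linarith) (hPy i).le
      have h2 : (1 / L ^ 2) * ∑ i : Fin PP.card, 1 / ((emb PP i : ℕ) : ℝ) ≤ (1 / L ^ 2) * (2 * L) := by
        apply mul_le_mul_of_nonneg_left _ (by positivity)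
        linarith
      have h3 : (1 / L ^ 2) * (2 * L) = 2 / L := by field_simp
      have h4 : 2 * u * ∑ i : Fin PP.card, 1 / ((emb PP i : ℕ) : ℝ) ^ 2 ≤ 2 * (L / 8) * (2 / L) := by
        apply mul_le_mul _ (by linarith) (Finset.sum_nonneg (fun i _ => by positivity))
          (by positivity)
        linarith
      have e : 2 * (L / 8) * (2 / L) = 1 / 2 := by field_simp; norm_num
      linarith)
    (by
      rw [← hu]
      exact num_tail hLexp f1 f5 hu0 huL hzpos hlzpos hlz1 hlz2 hKsum)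
    (by
      rw [← hu]
      exact num_mom hLexp f1 f5 hu0 huL hJ1 (by linarith))
    hevent
    (by
      rw [← hu]
      exact num_fin2 f5 hu0 (by linarith) hn1 hzJ hN hErr)
  refine ⟨a, ha, fun k => ?_⟩
  obtain ⟨i, hi⟩ := hcov k
  exact ⟨emb PP i, emb_mem PP i, (colh_eq huniq a i k).mp hi⟩

end Pool.Agent.N542.PV
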