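import Pool.Agent.N542.PV.Cov
import Pool.Agent.N542.PU.Poly
import Pool.Agent.N201.SQ.CovSq

set_option autoImplicit false
set_option linter.unusedSectionVars false

/-! # The covering theorem for the polynomials `(X + k)² + h`, for well distributed families of vectors -/

namespace Pool.Agent.N542.PV

open Finset Filter Polynomial
open Pool.Agent.H378R2.QG
open Pool.Agent.H256R2.SC (emb emb_mem Asum)
open Pool.Agent.H474R2.PG (rho eval_dvd_congr)
open Pool.Agent.Helper919 (XX XX_apply XX_abs_le)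
open Pool.Agent.N201.SQ
open Pool.Agent.N542.PU (res dvd_sub_res count_vec crt_two Bset Bset_lt dens_Bset WellDist)

open scoped Classical

/-- passing to slightly smaller densities loses at most a factor two -/
lemma shrink (𝒯 : Finset (Finset ℕ)) (g₀ g : ℕ → ℝ) (L x : ℝ) (hL : 1 ≤ L) (hx : 0 < x)
    (hxL : Real.log x ≤ L) (h0 : ∀ p, 0 ≤ g₀ p)
    (hT : ∀ s ∈ 𝒯, ∏ p ∈ s, (p : ℝ) ≤ x ∧ ∀ p ∈ s, 3 ≤ (p : ℝ) ∧ (1 - 1 / (2 * L)) * g₀ p ≤ g p) :
    1 / 2 * ∑ s ∈ 𝒯, ∏ p ∈ s, g₀ p ≤ ∑ s ∈ 𝒯, ∏ p ∈ s, g p := by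
  rw [mul_sum]
  refine sum_le_sum fun s hs => ?_
  obtain ⟨hs3, hmem⟩ := hT s hs
  have ha0 : 0 ≤ 1 - 1 / (2 * L) := by
    have : 1 / (2 * L) ≤ 1 := by
      rw [div_le_one (by positivity)]
      linarith
    linarith
  have h1 : (1 - 1 / (2 * L)) ^ s.card * ∏ p ∈ s, g₀ p ≤ ∏ p ∈ s, g p := by
    rw [← prod_const, ← prod_mul_distrib]
    refine prod_le_prod ?_ ?_
    · intro p _
      exact mul_nonneg ha0 (h0 p)
    · intro p hp
      exact (hmem p hp).2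
  have h2 : (s.card : ℝ) ≤ L := by
    have e1 : Real.exp (s.card : ℝ) ≤ ∏ p ∈ s, (p : ℝ) := by
      have : Real.exp (s.card : ℝ) = ∏ p ∈ s, Real.exp 1 := by
        rw [prod_const, ← Real.exp_nat_mul, mul_one]
      rw [this]
      refine prod_le_prod (fun _ _ => (Real.exp_pos _).le) fun p hp => ?_
      have := Real.exp_one_lt_d9
      linarith [(hmem p hp).1]
    have e2 := e1.trans hs3
    have e3 : (s.card : ℝ) ≤ Real.log x := by
      rw [Real.le_log_iff_exp_le hx]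
      exact e2
    linarith
  have h3 : 1 / 2 ≤ (1 - 1 / (2 * L)) ^ s.card := by
    have e1 := one_add_mul_le_pow (show (-2:ℝ) ≤ -(1 / (2 * L)) by linarith) s.card
    have e2 : (s.card : ℝ) * (1 / (2 * L)) ≤ 1 / 2 := by
      rw [mul_one_div, div_le_div_iff₀ (by positivity) (by norm_num)]
      linarith
    have e3 : (1:ℝ) + -(1 / (2 * L)) = 1 - 1 / (2 * L) := by ring
    rw [e3] at e1
    linarith
  refine le_trans ?_ h1
  exact mul_le_mul_of_nonneg_right h3 (prod_nonneg fun p _ => h0 p)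

theorem cov_sq_vec (n : ℕ) (hn : 1 ≤ n) (b : ℕ) (C₀ : ℝ) (hC₀ : 0 ≤ C₀) : ∃ c : ℝ, 0 < c ∧
    ∃ L₀ : ℝ, ∀ L : ℝ, L₀ ≤ L → ∀ (𝒮 : Finset (ℤ × ℤ)) (β : ℤ × ℤ → ℝ),
    (∀ s ∈ 𝒮, |(s.1 : ℝ)| ≤ L ^ b ∧ |(s.2 : ℝ)| ≤ L ^ 2 ∧ ¬ IsSquare (-s.2)) →
    (∀ s ∈ 𝒮, 0 ≤ β s ∧ β s ≤ C₀ + Real.log L / 10 ∧
      ∀ w, L ^ (4 * b + 5) ≤ w → -(β s) ≤ Tc (fun p => XX (-s.2) p) (L ^ (4 * b + 5)) w) →
    ∑ s ∈ 𝒮, Real.exp (β s) ≤ c * L →
    ∀ (Y : ℝ) (W : ℕ) (r : ℤ), 1 ≤ W →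
    (∀ p : ℕ, p.Prime → L ^ (4 * b + 5) < p → ¬ p ∣ W) →
    Real.exp L ≤ Y → (W : ℝ) * Real.exp (L / 10) ≤ Y →
    ∀ (α : Type) (s₀ : Finset α) (w₀ : α → Fin n → ℤ), s₀.Nonempty → WellDist Y s₀ w₀ →
    ∃ a ∈ s₀, (∀ j, (W : ℤ) ∣ w₀ a j - r) ∧ ∀ j, ∀ s ∈ 𝒮, ∃ p : ℕ, p.Prime ∧
      L ^ (4 * b + 5) < (p : ℝ) ∧ (p : ℝ) ≤ Real.exp (L / 10) ∧ (p : ℤ) ∣ (w₀ a j + s.1) ^ 2 + s.2 := by
  have hnR : (0 : ℝ) < n := by exact_mod_cast hn
  have hnR1 : (1 : ℝ) ≤ n := by exact_mod_cast hn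
  have hnN : Nonempty (Fin n) := ⟨⟨0, hn⟩⟩
  obtain ⟨B, hB⟩ : ∃ B : ℕ, B = 4 * b + 5 := ⟨_, rfl⟩
  have hB5 : 5 ≤ B := by omega
  obtain ⟨c₂', hc₂', hAl'⟩ := A_lower
  obtain ⟨c₂, hc₂d⟩ : ∃ c₂, c₂ = min c₂' 1 / 2 := ⟨_, rfl⟩
  have hmin0 : 0 < min c₂' 1 := lt_min hc₂' one_pos
  have hc₂ : 0 < c₂ := by rw [hc₂d]; positivity
  have hc₂1 : c₂ ≤ 1 := by rw [hc₂d]; linarith [min_le_right c₂' 1]
  have hc₂le : 2 * c₂ ≤ c₂' := by rw [hc₂d]; linarith [min_le_left c₂' 1]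
  have hBR : (0 : ℝ) < B := by exact_mod_cast (by omega : 0 < B)
  obtain ⟨L₁, hL₁⟩ := ev_cov B c₂ C₀ hBR hc₂
  obtain ⟨L₂, hcore⟩ := cov_gen B (by omega)
  obtain ⟨c, hc⟩ : ∃ c : ℝ, c = min (1 / (8 * (n : ℝ))) (c₂ / (3200 * B * n)) := ⟨_, rfl⟩
  have hc0 : 0 < c := by rw [hc]; exact lt_min (by positivity) (by positivity)
  have hc8 : c ≤ 1 / (8 * n) := by rw [hc]; exact min_le_left _ _
  have hcc : c ≤ c₂ / (3200 * B * n) := by rw [hc]; exact min_le_right _ _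
  refine ⟨c, hc0, max L₁ L₂, ?_⟩
  rw [← hB]
  intro L hL 𝒮 β h𝒮 hβ hcost Y W r hW hWp hLY hWY α s₀ w₀ hs₀ hwd
  obtain ⟨f1, f2, f3⟩ := hL₁ L ((le_max_left _ _).trans hL)
  have hcore' := hcore L ((le_max_right _ _).trans hL)
  obtain ⟨l, hl⟩ : ∃ l, l = Real.log L := ⟨_, rfl⟩
  rw [← hl] at f2 f3 hβ hcore'
  have hL0 : 0 < L := by linarith
  have hl0 : 0 < l := by linarith
  have hWR : (0 : ℝ) < W := by exact_mod_cast hW
  have hY0 : 0 < Y := lt_of_lt_of_le (Real.exp_pos _) hLY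
  have hY1 : 1 ≤ Y := (Real.one_le_exp hL0.le).trans hLY
  -- the set
  obtain ⟨𝒜, h𝒜⟩ : ∃ 𝒜 : Finset α, 𝒜 = s₀.filter (fun a => ∀ j, (W : ℤ) ∣ w₀ a j - r) := ⟨_, rfl⟩
  have hs₀c : (0 : ℝ) < s₀.card := by exact_mod_cast hs₀.card_pos
  obtain ⟨N, hN⟩ : ∃ N : ℝ, N = (s₀.card : ℝ) / (W : ℝ) ^ n := ⟨_, rfl⟩
  have hWn : (0 : ℝ) < (W : ℝ) ^ n := pow_pos hWR n
  have hN0 : 0 < N := by rw [hN]; exact div_pos hs₀c hWn
  have hYn : Y ^ (-((n : ℝ) + 1)) = (Y ^ n * Y)⁻¹ := by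
    rw [Real.rpow_neg hY0.le]
    congr 1
    rw [Real.rpow_add hY0, Real.rpow_natCast, Real.rpow_one]
  have hexp1 : 1 ≤ Real.exp (L / 10) := Real.one_le_exp (by positivity)
  have hWY1 : (W : ℝ) ≤ Y := by
    refine le_trans ?_ hWY
    exact le_mul_of_one_le_right hWR.le hexp1
  -- the error
  have herr : (Real.exp (L / 10)) ^ n * (s₀.card * Y ^ (-((n : ℝ) + 1))) ≤
      N * Real.exp (-(2 / 5 * L)) := by
    rw [hYn, hN, Real.exp_neg]
    have hYp : 0 < Y ^ n * Y := by positivity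
    have e1 : (s₀.card : ℝ) / (W : ℝ) ^ n * (Real.exp (2 / 5 * L))⁻¹ =
        s₀.card / ((W : ℝ) ^ n * Real.exp (2 / 5 * L)) := by
      field_simp
    have e2 : (Real.exp (L / 10)) ^ n * (s₀.card * (Y ^ n * Y)⁻¹) =
        s₀.card * (Real.exp (L / 10)) ^ n / (Y ^ n * Y) := by
      field_simp
    rw [e1, e2, div_le_div_iff₀ hYp (mul_pos hWn (Real.exp_pos _))]
    have e3 : ((W : ℝ) * Real.exp (L / 10)) ^ n ≤ Y ^ n :=
      pow_le_pow_left₀ (by positivity) hWY n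
    have e4 : Real.exp (2 / 5 * L) ≤ Y := by
      refine le_trans ?_ hLY
      exact Real.exp_le_exp.mpr (by linarith)
    calc (s₀.card : ℝ) * (Real.exp (L / 10)) ^ n * ((W : ℝ) ^ n * Real.exp (2 / 5 * L))
        = s₀.card * (((W : ℝ) * Real.exp (L / 10)) ^ n * Real.exp (2 / 5 * L)) := by
          rw [mul_pow]; ring
      _ ≤ s₀.card * (Y ^ n * Y) := by
          apply mul_le_mul_of_nonneg_left _ hs₀c.le
          exact mul_le_mul e3 e4 (Real.exp_pos _).le (by positivity)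
  rcases 𝒮.eq_empty_or_nonempty with he | hne
  · have h1 := hwd W hW hWY1 (fun _ => r)
    rw [← h𝒜, ← hN] at h1
    have h3 := (abs_le.mp h1).1
    have h4 : (s₀.card : ℝ) * Y ^ (-((n : ℝ) + 1)) < N := by
      have h5 : (1 : ℝ) ≤ (Real.exp (L / 10)) ^ n := one_le_pow₀ hexp1
      have h6 : 0 ≤ (s₀.card : ℝ) * Y ^ (-((n : ℝ) + 1)) :=
        mul_nonneg hs₀c.le (Real.rpow_nonneg hY0.le _)
      have h7 : Real.exp (-(2 / 5 * L)) < 1 := by
        rw [Real.exp_lt_one_iff]; linarith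
      calc (s₀.card : ℝ) * Y ^ (-((n : ℝ) + 1))
          ≤ (Real.exp (L / 10)) ^ n * (s₀.card * Y ^ (-((n : ℝ) + 1))) :=
            le_mul_of_one_le_left h6 h5
        _ ≤ N * Real.exp (-(2 / 5 * L)) := herr
        _ < N * 1 := mul_lt_mul_of_pos_left h7 hN0
        _ = N := mul_one _
    have h5 : (0:ℝ) < (𝒜.card : ℝ) := by linarith
    have h6 : 0 < 𝒜.card := by exact_mod_cast h5
    obtain ⟨a, ha⟩ := Finset.card_pos.1 h6
    rw [h𝒜, Finset.mem_filter] at ha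
    exact ⟨a, ha.1, ha.2, fun j s hs => by rw [he] at hs; exact absurd hs (Finset.notMem_empty s)⟩
  obtain ⟨z, hz⟩ : ∃ z, z = Real.exp (L / (1500 * l)) := ⟨_, rfl⟩
  have hz0 : 0 < z := by rw [hz]; exact Real.exp_pos _
  have hlz : Real.log z = L / (1500 * l) := by rw [hz, Real.log_exp]
  have hz1 : 1 < z := by rw [hz]; exact Real.one_lt_exp_iff.mpr (by positivity)
  have hlz2 : L / (2000 * l) ≤ Real.log z := by
    rw [hlz]
    apply div_le_div_of_nonneg_left hL0.le (by positivity)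
    linarith
  have hlz1 : Real.log z ≤ L / (1000 * l) := by
    rw [hlz]
    apply div_le_div_of_nonneg_left hL0.le (by positivity)
    linarith
  have hzL : z ≤ Real.exp (L / 10) := by
    rw [hz]
    apply Real.exp_le_exp.mpr
    apply div_le_div_of_nonneg_left hL0.le (by norm_num)
    linarith
  have hlzL : Real.log z ≤ L := by
    rw [hlz, div_le_iff₀ (by positivity)]
    nlinarith
  rw [← hlz] at f3
  obtain ⟨PP, hPP⟩ : ∃ PP, PP = PZ (L ^ B) z := ⟨_, rfl⟩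
  have hLB : L ^ 2 ≤ L ^ B := pow_le_pow_right₀ (by linarith) (by omega)
  have hL2 : 1000 ≤ L ^ 2 := by nlinarith
  have hPPmem : ∀ p ∈ PP, p.Prime ∧ L ^ B < (p:ℝ) ∧ (p:ℝ) ≤ z ∧ p ≠ 2 := by
    intro p hp
    rw [hPP] at hp
    unfold PZ at hp
    rw [Finset.mem_filter, Finset.mem_Icc] at hp
    refine ⟨hp.2.1, hp.2.2, ?_, ?_⟩
    · calc (p:ℝ) ≤ (⌊z⌋₊ : ℝ) := by exact_mod_cast hp.1.2
        _ ≤ z := Nat.floor_le hz0.le
    · rintro rfl
      have := hp.2.2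
      push_cast at this
      linarith
  -- the killed residues
  have hsum1 : ∑ k : (↥𝒮), Real.exp (β (k : ℤ × ℤ)) ≤ c * L := by
    refine le_trans (le_of_eq ?_) hcost
    exact Finset.sum_coe_sort 𝒮 (fun s => Real.exp (β s))
  have hScard : (𝒮.card : ℝ) ≤ c * L := by
    refine le_trans ?_ hcost
    have : (𝒮.card : ℝ) = ∑ k ∈ 𝒮, (1:ℝ) := by
      rw [Finset.sum_const, nsmul_eq_mul, mul_one]
    rw [this]
    exact Finset.sum_le_sum fun k hk => Real.one_le_exp (hβ k hk).1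
  obtain ⟨U, hU⟩ : ∃ U : ℕ → Finset ℕ, U = fun p =>
    (Finset.range p).filter (fun a : ℕ => ∃ s ∈ 𝒮, (p : ℤ) ∣ (Qd s).eval (a : ℤ)) := ⟨_, rfl⟩
  have hUm : ∀ p a, a ∈ U p ↔ a ∈ Finset.range p ∧ ∃ s ∈ 𝒮, (p : ℤ) ∣ (Qd s).eval (a : ℤ) := by
    intro p a
    rw [hU]
    simp only [Finset.mem_filter]
  have hUr : ∀ p, U p ⊆ Finset.range p := fun p a ha => ((hUm p a).1 ha).1
  have hUc : ∀ p ∈ PP, ((U p).card : ℝ) ≤ 𝒮.card * 2 := by
    intro p hp
    have h1 : U p ⊆ 𝒮.biUnion (fun s => (Finset.range p).filter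
        (fun a : ℕ => (p : ℤ) ∣ (Qd s).eval (a : ℤ))) := by
      intro a ha
      obtain ⟨h1, s, hs, h2⟩ := (hUm p a).1 ha
      rw [Finset.mem_biUnion]
      exact ⟨s, hs, Finset.mem_filter.2 ⟨h1, h2⟩⟩
    have h2 := (Finset.card_le_card h1).trans (Finset.card_biUnion_le_card_mul _ _ 2 (by
      intro s _
      have := rho_Qd_le s (hPPmem p hp).1 (hPPmem p hp).2.2.2
      exact_mod_cast this))
    exact_mod_cast h2
  have hUθ : ∀ p ∈ PP, (n : ℝ) * (((U p).card : ℝ) / p) ≤ 1 / (2 * L) := by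
    intro p hp
    have hp0 : (0 : ℝ) < p := by
      have := (hPPmem p hp).2.1
      linarith
    have h4 : L ^ 5 ≤ L ^ B := pow_le_pow_right₀ (by linarith) hB5
    have h5 : (n : ℝ) * ((U p).card : ℝ) ≤ L / 4 := by
      calc (n : ℝ) * ((U p).card : ℝ) ≤ n * (𝒮.card * 2) :=
            mul_le_mul_of_nonneg_left (hUc p hp) hnR.le
        _ ≤ n * (c * L * 2) := by
            apply mul_le_mul_of_nonneg_left _ hnR.le
            exact mul_le_mul_of_nonneg_right hScard (by norm_num)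
        _ ≤ n * (1 / (8 * n) * L * 2) := by
            apply mul_le_mul_of_nonneg_left _ hnR.le
            apply mul_le_mul_of_nonneg_right _ (by norm_num)
            exact mul_le_mul_of_nonneg_right hc8 hL0.le
        _ = L / 4 := by
            field_simp
            norm_num
    rw [← mul_div_assoc, div_le_div_iff₀ hp0 (by positivity), one_mul]
    have h6 : (n : ℝ) * ((U p).card : ℝ) * (2 * L) ≤ L / 4 * (2 * L) :=
      mul_le_mul_of_nonneg_right h5 (by positivity)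
    have h7 : L / 4 * (2 * L) ≤ L ^ 5 := by
      have e1 : L ^ 5 = L ^ 2 * L ^ 3 := by ring
      have e2 : (1 : ℝ) ≤ L ^ 3 := one_le_pow₀ (by linarith)
      rw [e1]
      nlinarith
    linarith [(hPPmem p hp).2.1]
  -- the colours
  have : Nonempty (↥𝒮) := hne.to_subtype
  obtain ⟨g₀, hg₀⟩ : ∃ g₀ : ℕ → (ℤ × ℤ) → ℝ, g₀ = fun (p : ℕ) (k : ℤ × ℤ) => (rho (Qd k) p : ℝ) / (p : ℝ) := ⟨_, rfl⟩
  have hg₀d : ∀ p k, g₀ p k = (rho (Qd k) p : ℝ) / (p : ℝ) := fun p k => by rw [hg₀]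
  obtain ⟨g, hg⟩ : ∃ g : ℕ → (Fin n × ↥𝒮) → ℝ, g = fun (p : ℕ) (k : Fin n × ↥𝒮) =>
    ((Bset p (Qd (k.2 : ℤ × ℤ)) (U p) k.1).card : ℝ) / (p : ℝ) ^ n := ⟨_, rfl⟩
  have hgd : ∀ p k, g p k = ((Bset p (Qd (k.2 : ℤ × ℤ)) (U p) k.1).card : ℝ) / (p : ℝ) ^ n :=
    fun p k => by rw [hg]
  have hgb : ∀ p ∈ PP, ∀ k, g p k ≤ g₀ p k.2 ∧ (1 - 1 / (2 * L)) * g₀ p k.2 ≤ g p k := by
    intro p hp k
    rw [hgd, hg₀d]
    exact dens_Bset p (hPPmem p hp).1.pos _ (U p) (hUr p) k.1 _ (hUθ p hp)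
  have hg0 : ∀ p k, 0 ≤ g p k := fun p k => by
    rw [hgd]
    exact div_nonneg (Nat.cast_nonneg _) (pow_nonneg (Nat.cast_nonneg _) _)
  obtain ⟨K, hK⟩ : ∃ K : (Fin n × ↥𝒮) → ℝ, K = fun (k : Fin n × ↥𝒮) => 8 * B / (c₂ * Real.exp (-(β (k.2 : ℤ × ℤ)))) := ⟨_, rfl⟩
  have hKd : ∀ k, K k = 8 * B / (c₂ * Real.exp (-(β (k.2 : ℤ × ℤ)))) := fun k => by rw [hK]
  have hKe : ∀ k, K k = 8 * B / c₂ * Real.exp (β (k.2 : ℤ × ℤ)) := by
    intro k
    rw [hKd, Real.exp_neg]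
    have := (Real.exp_pos (β (k.2 : ℤ × ℤ))).ne'
    field_simp
  have hP1 : ∀ i : Fin PP.card, 1 < ((emb PP i : ℕ) : ℝ) := fun i => by
    have := (hPPmem _ (emb_mem PP i)).2.1
    linarith
  have hlogy : Real.log (L ^ B) = B * l := by rw [Real.log_pow, ← hl]
  have hdvd : ∀ (p : ℕ), p.Prime → ∀ (s : ℤ × ℤ) (a : α) (j : Fin n),
      (p : ℤ) ∣ (Qd s).eval (res n p (w₀ a) j : ℤ) → (p : ℤ) ∣ (w₀ a j + s.1) ^ 2 + s.2 := by
    intro p hp s a j h
    have h1 := (eval_dvd_congr (Qd s) p _ _ (dvd_sub_res hp.pos (w₀ a) j)).2 h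
    rwa [eval_Qd] at h1
  obtain ⟨a, ha, hcov⟩ := hcore' z hz0 hlz2 hlz1 (Fin n × ↥𝒮) g K hg0
    (by
      rw [← hPP]
      intro p hp k
      refine (hgb p hp k).1.trans ?_
      rw [hg₀d]
      exact div_le_div_of_nonneg_right (rho_Qd_le _ (hPPmem p hp).1 (hPPmem p hp).2.2.2)
        (Nat.cast_nonneg _))
    (by
      rw [← hPP]
      intro k
      obtain ⟨b1, b2, b3⟩ := hβ k.2 k.2.2
      have hex : Real.exp (-(β (k.2 : ℤ × ℤ))) ≤ 1 := by
        rw [Real.exp_le_one_iff]; linarith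
      have hlam : 0 < c₂ * Real.exp (-(β (k.2 : ℤ × ℤ))) := mul_pos hc₂ (Real.exp_pos _)
      rw [hKd]
      apply prof hBR (show 1 < L by linarith) hlam (by
        calc c₂ * Real.exp (-(β (k.2 : ℤ × ℤ))) ≤ 1 * 1 :=
              mul_le_mul hc₂1 hex (Real.exp_pos _).le zero_le_one
          _ = 1 := by norm_num) hz1 _ _ hP1
        (fun i => hg0 _ _)
      · refine le_trans ?_ f3
        apply mul_le_mul_of_nonneg_left _ (Real.rpow_nonneg hL0.le _)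
        rw [← hl]
        apply div_le_div_of_nonneg_left (by positivity) (mul_pos hc₂ (Real.exp_pos _))
        apply mul_le_mul_of_nonneg_left _ hc₂.le
        exact Real.exp_le_exp.mpr (by linarith)
      · intro x hx0 hx1 hx2
        rw [← hl] at hx1 ⊢
        have hy1x : L ^ B ≤ x := by
          rw [← Real.log_le_log_iff (by positivity) hx0, hlogy]
          exact hx1
        have h1 := hAl' (L ^ B) z x (β (k.2 : ℤ × ℤ)) (fun p => XX (-(k.2 : ℤ × ℤ).2) p)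
          (fun p => XX_abs_le _ _) (by linarith) hy1x hx2 b1 (fun w hw1 _ => b3 w hw1)
        rw [hlogy, ← hPP] at h1
        have h2 : Asum (fun i => ((emb PP i : ℕ) : ℝ)) (fun i => g (emb PP i) k) x =
            ∑ s ∈ (PP.powerset.filter (fun s : Finset ℕ => s.Nonempty ∧ ∏ p ∈ s, (p : ℝ) ≤ x)),
              ∏ p ∈ s, g p k := Asum_enum PP (fun p => g p k) x
        rw [h2]
        have h9 := shrink (PP.powerset.filter (fun s : Finset ℕ => s.Nonempty ∧ ∏ p ∈ s, (p : ℝ) ≤ x))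
          (fun p => g₀ p k.2) (fun p => g p k) L x (by linarith) hx0
          ((Real.log_le_log hx0 hx2).trans hlzL)
          (fun p => by rw [hg₀d]; exact div_nonneg (Nat.cast_nonneg _) (Nat.cast_nonneg _))
          (by
            intro s hs
            rw [Finset.mem_filter, Finset.mem_powerset] at hs
            refine ⟨hs.2.2, fun p hp => ⟨?_, (hgb p (hs.1 hp) k).2⟩⟩
            have := (hPPmem p (hs.1 hp)).2.1
            linarith)
        refine le_trans ?_ h9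
        have h10 : ∑ s ∈ (PP.powerset.filter (fun s : Finset ℕ => s.Nonempty ∧ ∏ p ∈ s, (p : ℝ) ≤ x)),
            ∏ p ∈ s, g₀ p k.2 =
            ∑ s ∈ (PP.powerset.filter (fun s : Finset ℕ => s.Nonempty ∧ ∏ p ∈ s, (p : ℝ) ≤ x)),
            ∏ p ∈ s, (1 + XX (-(k.2 : ℤ × ℤ).2) p) / (p : ℝ) := by
          refine Finset.sum_congr rfl fun s hs => ?_
          rw [Finset.mem_filter, Finset.mem_powerset] at hs
          refine Finset.prod_congr rfl fun p hp => ?_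
          rw [hg₀d, rho_Qd _ (hPPmem p (hs.1 hp)).1 (hPPmem p (hs.1 hp)).2.2.2]
        rw [h10]
        have h3 : 0 ≤ Real.log x / (B * l) := by
          apply div_nonneg _ (by positivity)
          linarith [mul_pos hBR hl0]
        have h4 : 2 * c₂ * Real.exp (-(β (k.2 : ℤ × ℤ))) ≤ c₂' * Real.exp (-(β (k.2 : ℤ × ℤ))) :=
          mul_le_mul_of_nonneg_right hc₂le (Real.exp_pos _).le
        have h5 := mul_le_mul_of_nonneg_right h4 h3
        have h6 := mul_le_mul_of_nonneg_left h1 (show (0:ℝ) ≤ 1 / 2 by norm_num)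
        refine le_trans ?_ h6
        linarith)
    (by
      have h1 : ∑ k, K k = n * (8 * B / c₂ * ∑ k : (↥𝒮), Real.exp (β (k : ℤ × ℤ))) := by
        rw [Fintype.sum_prod_type, Finset.mul_sum]
        simp only [hKe]
        rw [Finset.sum_const, Finset.card_univ, Fintype.card_fin, nsmul_eq_mul]
      rw [h1]
      calc n * (8 * B / c₂ * ∑ k : (↥𝒮), Real.exp (β (k : ℤ × ℤ))) ≤ n * (8 * B / c₂ * (c * L)) := by
            apply mul_le_mul_of_nonneg_left _ hnR.le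
            exact mul_le_mul_of_nonneg_left hsum1 (by positivity)
        _ ≤ n * (8 * B / c₂ * (c₂ / (3200 * B * n) * L)) := by
            apply mul_le_mul_of_nonneg_left _ hnR.le
            apply mul_le_mul_of_nonneg_left _ (by positivity)
            exact mul_le_mul_of_nonneg_right hcc hL0.le
        _ = L / 400 := by field_simp; ring)
    (by
      rw [Fintype.card_prod, Fintype.card_fin, Fintype.card_coe]
      push_cast
      calc (n : ℝ) * 𝒮.card ≤ n * (c * L) := mul_le_mul_of_nonneg_left hScard hnR.le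
        _ ≤ n * (1 / (8 * n) * L) := by
            apply mul_le_mul_of_nonneg_left _ hnR.le
            exact mul_le_mul_of_nonneg_right hc8 hL0.le
        _ = L / 8 := by field_simp)
    α (fun p a k => res n p (w₀ a) ∈ Bset p (Qd (k.2 : ℤ × ℤ)) (U p) k.1)
    (by
      rw [← hPP]
      intro p hp a k k' h1 h2
      obtain ⟨p1, p2, p3, p4⟩ := hPPmem p hp
      simp only [Bset, Fintype.mem_piFinset] at h1 h2
      have h1a := h1 k.1
      rw [if_pos rfl, Finset.mem_filter] at h1a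
      have h2a := h2 k'.1
      rw [if_pos rfl, Finset.mem_filter] at h2a
      have hj : k.1 = k'.1 := by
        by_contra hne
        have h1b := h1 k'.1
        rw [if_neg (Ne.symm hne), Finset.mem_sdiff] at h1b
        apply h1b.2
        rw [hUm]
        exact ⟨h2a.1, k'.2, k'.2.2, h2a.2⟩
      have hP : k.2 = k'.2 := by
        rw [← hj] at h2a
        have q1 := h𝒮 k.2 k.2.2
        have q2 := h𝒮 k'.2 k'.2.2
        have h3 := res_lt f1 q1.1 q2.1 q1.2.1 q2.2.1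
        rw [← hB] at h3
        have e1 := h1a.2
        have e2 := h2a.2
        rw [eval_Qd] at e1 e2
        have h4 := coll q1.2.2 e1 e2 (by
          have h5 := h3.trans p2
          exact_mod_cast h5)
        exact Subtype.ext (Prod.ext h4.1 h4.2)
      exact Prod.ext hj hP)
    𝒜 N ((Real.exp (L / 10)) ^ n * (s₀.card * Y ^ (-((n : ℝ) + 1)))) hN0
    (mul_nonneg (pow_nonneg (Real.exp_pos _).le _)
      (mul_nonneg hs₀c.le (Real.rpow_nonneg hY0.le _))) herr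
    (by
      rw [← hPP]
      intro T s hT hTX
      have hTp : ∀ p ∈ T, p.Prime := fun p hp => (hPPmem p (hT p hp)).1
      have hTW : ∀ p ∈ T, ¬ p ∣ W := fun p hp => hWp p (hTp p hp) (hPPmem p (hT p hp)).2.1
      have hcopW : Nat.Coprime W (∏ p ∈ T, p) := Nat.Coprime.prod_right fun p hp =>
        (Nat.Coprime.symm ((Nat.Prime.coprime_iff_not_dvd (hTp p hp)).2 (hTW p hp)))
      have hq1 : 1 ≤ ∏ p ∈ T, p := Finset.prod_pos fun p hp => (hTp p hp).pos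
      have hqY : ((∏ p ∈ T, p : ℕ) : ℝ) ≤ Real.exp (L / 10) := by
        push_cast
        exact hTX
      have h1 := count_vec n T hTp (fun p => Bset p (Qd ((s p).2 : ℤ × ℤ)) (U p) (s p).1)
        (fun p hp => Bset_lt p _ _ _) 𝒜 w₀ N (s₀.card * Y ^ (-((n : ℝ) + 1)))
        (mul_nonneg hs₀c.le (Real.rpow_nonneg hY0.le _)) (by
          intro c₁
          obtain ⟨ρ, hρ⟩ := crt_two W (∏ p ∈ T, p) hcopW (fun _ : Fin n => r) c₁
          have h2 := hwd (W * ∏ p ∈ T, p) (Nat.mul_pos hW hq1) (by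
            rw [Nat.cast_mul]
            exact (mul_le_mul_of_nonneg_left hqY hWR.le).trans hWY) ρ
          have h3 : s₀.filter (fun i => ∀ j, ((W * ∏ p ∈ T, p : ℕ) : ℤ) ∣ w₀ i j - ρ j) =
              𝒜.filter (fun a => ∀ j, ((∏ p ∈ T, p : ℕ) : ℤ) ∣ w₀ a j - c₁ j) := by
            ext x
            rw [h𝒜, Finset.mem_filter, Finset.mem_filter, Finset.mem_filter, hρ (w₀ x), and_assoc]
          rw [h3] at h2
          have h4 : (s₀.card : ℝ) / ((W * ∏ p ∈ T, p : ℕ) : ℝ) ^ n =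
              N / ((∏ p ∈ T, p : ℕ) : ℝ) ^ n := by
            rw [hN, Nat.cast_mul, mul_pow, div_div]
          rw [h4] at h2
          exact h2)
      have h5 : ∏ p ∈ T, g p (s p) =
          ∏ p ∈ T, ((Bset p (Qd ((s p).2 : ℤ × ℤ)) (U p) (s p).1).card : ℝ) / (p : ℝ) ^ n :=
        Finset.prod_congr rfl fun p _ => hgd _ _
      rw [h5]
      refine le_trans (le_of_eq ?_) (h1.trans ?_)
      · congr!
      · apply mul_le_mul_of_nonneg_right _ (mul_nonneg hs₀c.le (Real.rpow_nonneg hY0.le _))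
        exact pow_le_pow_left₀ (Nat.cast_nonneg _) hqY n)
  rw [h𝒜, Finset.mem_filter] at ha
  refine ⟨a, ha.1, ha.2, fun j s hs => ?_⟩
  obtain ⟨p, hp, hpd⟩ := hcov (j, ⟨s, hs⟩)
  rw [← hPP] at hp
  obtain ⟨p1, p2, p3, p4⟩ := hPPmem p hp
  refine ⟨p, p1, p2, p3.trans hzL, hdvd p p1 s a j ?_⟩
  simp only [Bset, Fintype.mem_piFinset] at hpd
  have h1 := hpd j
  rw [if_pos rfl, Finset.mem_filter] at h1
  exact h1.2

end Pool.Agent.N542.PV
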