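import Pool.Agent.N542.PV.Real
import Pool.Agent.N542.PU.Exp
import Pool.Agent.N542.PU.Err
import Pool.Agent.TH915.PW.APCount

set_option autoImplicit false
set_option maxHeartbeats 4000000

/-! Squares near the integral parts of smooth functions of a prime number. -/

namespace Pool.Agent.N542.PV

open Finset Filter Topology Polynomial
open Pool.Agent.H469R2.NK (e norm_e e_add)
open Pool.Agent.N542.PP (SV)
open Pool.Agent.TH915.PW (card_primes)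
open Pool.Agent.W147.PS (ff ff_compare ev_pow)
open Pool.Agent.N542.PU (Spread exp_coords)

theorem transfer {r n : ℕ} (hn : 1 ≤ n) (c u : Fin r → ℝ) (F : Fin r → ℕ → ℝ → ℝ)
    (hSV : ∀ j, SV (c j) (F j)) (hcn : ∀ j, ∀ n : ℕ, c j ≠ n)
    (φ : Fin n → Fin r) (σ : Fin n → ℤ) (hφσ : ∀ k l, φ k = φ l → σ k = σ l → k = l)
    (hcard : ∀ j, ((univ.filter (fun k => φ k = j)).card : ℝ) < c j + u j + 1)
    (hsp : Spread (fun j => c j + u j) φ)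
    (B D d b : ℕ) (hd : 0 < d) (hb : b.Coprime d) (ε : ℝ) (hε : 0 < ε) (hε1 : ε ≤ 1 / 2) :
    ∃ κ δ : ℝ, 0 < κ ∧ 0 < δ ∧ ∀ᶠ Z : ℝ in atTop, ∀ (A : ℕ) (K : Finset ℤ),
      AdmSq κ B (Real.log Z) (Real.log (Real.log Z)) (ff Z) A K →
      ∀ (α : Fin r → ℝ) (P : Fin n → Polynomial ℝ),
      (∀ j, Z ^ (u j - δ) ≤ |α j| ∧ |α j| ≤ Z ^ (u j + δ)) → (∀ k, (P k).natDegree ≤ D) →
      ∃ G : Finset ℕ, Z ^ (1 - ε) ≤ (G.card : ℝ) ∧ ∀ p ∈ G, p.Prime ∧ p ≡ b [MOD d] ∧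
        Z < p ∧ (p : ℝ) ≤ (1 + ε) * Z ∧
        GoodSq K A (Z ^ ε)
          (fun k => ⌊α (φ k) * F (φ k) 0 ((p : ℝ) + σ k) + (P k).eval (p : ℝ)⌋) := by
  classical
  obtain ⟨ρ, δ, hρ0, hρ1, hδ, hexp⟩ := exp_coords hn c u F hSV hcn φ σ hφσ hcard hsp D ε hε hε1
  set η : ℝ := min (min (ρ / 8) δ) (min (ε / 8) (1 / 8)) with hη
  have hη0 : 0 < η := lt_min (lt_min (by positivity) hδ) (lt_min (by positivity) (by norm_num))
  have hηρ : η ≤ ρ / 8 := (min_le_left _ _).trans (min_le_left _ _)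
  have hηδ : η ≤ δ := (min_le_left _ _).trans (min_le_right _ _)
  have hηε : η ≤ ε / 8 := (min_le_right _ _).trans (min_le_left _ _)
  set τ : ℝ := min (ρ / 8) (ε / 8) with hτ
  have hτ0 : 0 < τ := lt_min (by positivity) (by positivity)
  have hτ1 : τ ≤ ρ / 8 := min_le_left _ _
  have hτ2 : τ ≤ ε / 8 := min_le_right _ _
  obtain ⟨κ, hκ, hmany⟩ := many n hn B η hη0 (by linarith)
  refine ⟨κ, δ, hκ, hδ, ?_⟩
  filter_upwards [hexp, hmany, card_primes d hd b hb ε τ hε (by linarith) hτ0,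
    eventually_ge_atTop (4 : ℝ), ev_pow (1 - ρ) (1 - τ - η) 2 (by linarith),
    ev_pow (1 - ε) (1 - τ - η) 1 (by linarith)]
    with Z hex hmany hcard hZ4 hp1 hp3
  intro A K hadm α P hα hPD
  have hZ0 : 0 < Z := by linarith
  have hZ1 : 1 ≤ Z := by linarith
  set Q : Finset ℕ := (Ioc ⌊Z⌋₊ ⌊(1 + ε) * Z⌋₊).filter (fun p => p.Prime ∧ p ≡ b [MOD d]) with hQ
  have hQpos : (0 : ℝ) < Q.card := lt_of_lt_of_le (by positivity) hcard
  have hQne : Q.Nonempty := by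
    rw [← Finset.card_pos]
    exact_mod_cast hQpos
  have hQmem : ∀ p ∈ Q, p.Prime ∧ p ≡ b [MOD d] ∧ Z < p ∧ (p : ℝ) ≤ (1 + ε) * Z := by
    intro p hp
    rw [hQ, Finset.mem_filter, Finset.mem_Ioc] at hp
    refine ⟨hp.2.1, hp.2.2, ?_, ?_⟩
    · exact (Nat.floor_lt hZ0.le).mp hp.1.1
    · have h1 : (p : ℝ) ≤ (⌊(1 + ε) * Z⌋₊ : ℕ) := by exact_mod_cast hp.1.2
      exact h1.trans (Nat.floor_le (by positivity))
  have hm01 : ⌊Z⌋₊ < ⌊(1 + ε) * Z⌋₊ := by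
    obtain ⟨p, hp⟩ := hQne
    rw [hQ, Finset.mem_filter, Finset.mem_Ioc] at hp
    omega
  have hQZ : Z ^ (1 - τ - η) ≤ (Q.card : ℝ) * Z ^ (-η) := by
    calc Z ^ (1 - τ - η) = Z ^ (1 - τ) * Z ^ (-η) := by
          rw [← Real.rpow_add hZ0]
          congr 1
      _ ≤ _ := by gcongr
  have hmono : Z ^ η ≤ Z ^ δ := Real.rpow_le_rpow_of_exponent_le hZ1 hηδ
  obtain ⟨G, hGQ, hG1, hG2⟩ := hmany A K hadm ℕ Q
    (fun p k => α (φ k) * F (φ k) 0 ((p : ℝ) + σ k) + (P k).eval (p : ℝ)) hQne (by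
      intro q hq hqZ h hh hhZ
      have h1 := hex d b α h q (∑ k, Polynomial.C ((h k : ℝ) / q) * P k)
        hd hα hq (hqZ.trans hmono) hh (fun k => (hhZ k).trans hmono)
        (Polynomial.natDegree_sum_le_of_forall_le _ _ (fun k _ =>
          (Polynomial.natDegree_C_mul_le _ _).trans (hPD _))) hm01
      refine le_trans (le_of_eq ?_) (h1.trans (hp1.trans hQZ))
      congr 1
      refine sum_congr rfl fun p _ => ?_
      congr 1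
      have e1 : ∑ k, (h k : ℝ) * ((α (φ k) * F (φ k) 0 ((p : ℝ) + σ k) + (P k).eval (p : ℝ)) / q) =
          ∑ k, (h k : ℝ) * α (φ k) / q * F (φ k) 0 ((p : ℝ) + σ k) +
          ∑ k, (h k : ℝ) / q * (P k).eval (p : ℝ) := by
        rw [← sum_add_distrib]
        refine sum_congr rfl fun k _ => ?_
        ring
      rw [e1, Polynomial.eval_finsetSum]
      congr 1
      refine sum_congr rfl fun k _ => ?_
      rw [Polynomial.eval_mul, Polynomial.eval_C])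
  refine ⟨G, ?_, ?_⟩
  · linarith
  · intro p hp
    obtain ⟨h1, h2, h3, h4⟩ := hQmem p (hGQ hp)
    refine ⟨h1, h2, h3, h4, ?_⟩
    intro j k hk a ha hsq
    obtain ⟨q, hq, hq1, hq2⟩ := hG2 p hp j k hk a ha hsq
    exact ⟨q, hq, hq1.trans (Real.rpow_le_rpow_of_exponent_le hZ1 (by linarith)), hq2⟩

lemma AdmSq_mono {κ κ' : ℝ} {b : ℕ} {L l R : ℝ} {A : ℕ} {K : Finset ℤ} (h : κ ≤ κ') (hL : 0 ≤ L)
    (hl : 0 ≤ l) (hR : 0 ≤ R) (hA : AdmSq κ b L l R A K) : AdmSq κ' b L l R A K := by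
  rcases hA with ⟨h1, h2⟩ | ⟨H, h1, h2, h3⟩
  · refine Or.inl ⟨h1, h2.trans ?_⟩
    gcongr
  · refine Or.inr ⟨H, h1, h2.trans (by gcongr), ?_⟩
    rcases h3 with h3 | h3
    · exact Or.inl (h3.trans (by gcongr))
    · exact Or.inr (h3.trans (by gcongr))

lemma ev_ff : ∀ᶠ Z : ℝ in atTop, 4 ≤ Real.log Z ∧ 0 ≤ Real.log (Real.log Z) ∧
    Real.log (Real.log Z) ≤ Real.log Z ∧ 0 ≤ ff Z ∧ ff Z ≤ (Real.log Z) ^ 2 := by
  have t1 : Tendsto Real.log atTop atTop := Real.tendsto_log_atTop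
  have t2 : Tendsto (fun M : ℝ => Real.log (Real.log M)) atTop atTop := t1.comp t1
  have t3 : Tendsto (fun M : ℝ => Real.log (Real.log (Real.log M))) atTop atTop := t1.comp t2
  have t4 : Tendsto (fun M : ℝ => Real.log (Real.log (Real.log (Real.log M)))) atTop atTop :=
    t1.comp t3
  have h5 : (fun Y : ℝ => (Real.log Y) ^ (2:ℝ)) =o[atTop] (fun Y : ℝ => Y ^ (1:ℝ)) :=
    isLittleO_log_rpow_rpow_atTop 2 one_pos
  have h6 := t1.eventually (h5.def one_pos)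
  filter_upwards [t1.eventually_ge_atTop 4, t2.eventually_ge_atTop 4, t3.eventually_ge_atTop 4,
    t4.eventually_ge_atTop 4, h6] with Z h1 h2 h3 h4 h6
  have hl := Real.log_le_sub_one_of_pos (show (0:ℝ) < Real.log Z by linarith)
  have hl4 := Real.log_le_sub_one_of_pos (show (0:ℝ) < Real.log (Real.log (Real.log Z)) by linarith)
  obtain ⟨L1, hL1⟩ : ∃ x, x = Real.log Z := ⟨_, rfl⟩
  rw [← hL1] at h1 h2 h3 h4 h6 hl hl4 ⊢
  obtain ⟨L2, hL2⟩ : ∃ x, x = Real.log L1 := ⟨_, rfl⟩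
  rw [← hL2] at h2 h3 h4 h6 hl hl4 ⊢
  obtain ⟨L3, hL3⟩ : ∃ x, x = Real.log L2 := ⟨_, rfl⟩
  rw [← hL3] at h3 h4 hl4
  obtain ⟨L4, hL4⟩ : ∃ x, x = Real.log L3 := ⟨_, rfl⟩
  rw [← hL4] at h4 hl4
  have hff : ff Z = L1 * L2 ^ 2 * L4 / L3 ^ 2 := by
    rw [ff, ← hL1, ← hL2, ← hL3, ← hL4]
  rw [Real.rpow_two, Real.rpow_one, Real.norm_eq_abs, Real.norm_eq_abs, one_mul,
    abs_of_nonneg (by positivity), abs_of_nonneg (by linarith)] at h6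
  refine ⟨h1, by linarith, by linarith, ?_, ?_⟩
  · rw [hff]; positivity
  · rw [hff, div_le_iff₀ (by positivity)]
    have e1 : L1 * L2 ^ 2 ≤ L1 ^ 2 := by nlinarith
    have e2 : L4 ≤ L3 ^ 2 := by nlinarith
    exact mul_le_mul e1 e2 (by linarith) (by positivity)

lemma ev_adm (κ : ℝ) (b : ℕ) (hκ : κ ≤ 1) (ε : ℝ) (hε : 0 < ε) : ∀ᶠ Z : ℝ in atTop,
    ∀ (A : ℕ) (K : Finset ℤ), K.Nonempty →
      AdmSq κ b (Real.log Z) (Real.log (Real.log Z)) (ff Z) A K → (A : ℝ) + 2 ≤ Z ^ ε := by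
  have h5 : (fun Y : ℝ => (Real.log Y) ^ (2:ℝ)) =o[atTop] (fun Y : ℝ => Y ^ ε) :=
    isLittleO_log_rpow_rpow_atTop 2 hε
  filter_upwards [ev_ff, h5.def (show (0:ℝ) < 1 / 2 by norm_num), eventually_ge_atTop (1:ℝ),
    (tendsto_rpow_atTop hε).eventually_ge_atTop 4] with Z h1 h2 hZ1 hZ4 A K hK hA
  obtain ⟨hL, hl0, hlL, hR0, hR⟩ := h1
  have hZε : (0:ℝ) ≤ Z ^ ε := Real.rpow_nonneg (by linarith) _
  obtain ⟨L, hL'⟩ : ∃ x, x = Real.log Z := ⟨_, rfl⟩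
  rw [← hL'] at hL hl0 hlL hR h2 hA
  obtain ⟨l, hl'⟩ : ∃ x, x = Real.log L := ⟨_, rfl⟩
  rw [← hl'] at hl0 hlL hA
  rw [Real.norm_eq_abs, Real.norm_eq_abs, abs_of_nonneg (by positivity),
    abs_of_nonneg hZε, Real.rpow_two] at h2
  have hc : (1 : ℝ) ≤ K.card := by exact_mod_cast hK.card_pos
  have hA0 : (0:ℝ) ≤ A := Nat.cast_nonneg _
  have key : (A : ℝ) ≤ L ^ 2 := by
    rcases hA with ⟨h3, h4⟩ | ⟨H, h3, h4, h5⟩
    · have e1 : (A : ℝ) * 1 ≤ A * K.card := by gcongr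
      have e2 : κ * L * l ≤ 1 * L * L := by gcongr
      nlinarith
    · have hH : (1 : ℝ) ≤ H := by
        have h6 : 0 < K.card := hK.card_pos
        rw [h3, Int.card_Ico] at h6
        have h7 : 0 < H := by omega
        exact_mod_cast h7
      rcases h5 with h5 | h5
      · have e2 : κ * L ≤ 1 * L := by gcongr
        nlinarith
      · have e1 : (A : ℝ) * 1 ≤ A * H := by gcongr
        have e2 : κ * ff Z ≤ 1 * ff Z := by gcongr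
        linarith
  linarith

/-- the trivial shifts -/
lemma not_prime_sq {u a : ℤ} (hsq : IsSquare (-a)) (h : |a| + 2 ≤ u) :
    ¬ (u ^ 2 + a).natAbs.Prime := by
  obtain ⟨m, hm⟩ := hsq
  have h1 : |m| ≤ |a| := by
    rw [← abs_neg a, hm, abs_mul]
    rcases eq_or_ne m 0 with h0 | h0
    · rw [h0]; simp
    · have : 1 ≤ |m| := Int.one_le_abs h0
      nlinarith
  have h2 := abs_le.1 h1
  have e : u ^ 2 + a = (u - m) * (u + m) := by linear_combination -hm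
  rw [e, Int.natAbs_mul]
  apply Nat.not_prime_mul
  · omega
  · omega

lemma iso_of_good {A : ℕ} {u : ℤ} {y : ℝ} (hy : (A : ℝ) + 2 ≤ y) (hu : y < |(u : ℝ)|)
    (h : ∀ a : ℤ, |a| ≤ A → ¬ IsSquare (-a) →
      ∃ p : ℕ, p.Prime ∧ (p : ℝ) ≤ y ∧ (p : ℤ) ∣ u ^ 2 + a) (q : ℕ) (hq : q.Prime) :
    (A : ℤ) < |(q : ℤ) - u ^ 2| := by
  by_contra hcon
  push Not at hcon
  have hu2 : (A : ℤ) + 2 ≤ |u| := by
    have : ((A : ℤ) : ℝ) + 2 ≤ ((|u| : ℤ) : ℝ) := by push_cast; linarith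
    exact_mod_cast this
  have e : u ^ 2 + ((q : ℤ) - u ^ 2) = q := by ring
  by_cases hsq : IsSquare (-((q : ℤ) - u ^ 2))
  · have h1 := not_prime_sq (u := |u|) hsq (by linarith)
    rw [sq_abs, e, Int.natAbs_natCast] at h1
    exact h1 hq
  · obtain ⟨p, hp, hp1, hp2⟩ := h _ hcon hsq
    rw [e, Int.natCast_dvd_natCast, Nat.prime_dvd_prime_iff_eq hp hq] at hp2
    rw [hp2] at hp1
    have h3 := (abs_le.1 hcon).1
    have h4 : |u| * 2 ≤ u ^ 2 := by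
      rw [← sq_abs]
      nlinarith [abs_nonneg u]
    have h5 : |u| ≤ q := by linarith
    have h6 : |(u : ℝ)| ≤ q := by exact_mod_cast h5
    linarith

/-- The main theorem in the form with no primes. -/
theorem isolated {r n : ℕ} (hn : 1 ≤ n) (c u : Fin r → ℝ) (F : Fin r → ℕ → ℝ → ℝ)
    (hSV : ∀ j, SV (c j) (F j)) (hcn : ∀ j, ∀ n : ℕ, c j ≠ n)
    (φ : Fin n → Fin r) (σ : Fin n → ℤ) (hφσ : ∀ k l, φ k = φ l → σ k = σ l → k = l)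
    (hcard : ∀ j, ((univ.filter (fun k => φ k = j)).card : ℝ) < c j + u j + 1)
    (hsp : Spread (fun j => c j + u j) φ)
    (B D d b : ℕ) (hd : 0 < d) (hb : b.Coprime d) (ε : ℝ) (hε : 0 < ε) (hε1 : ε ≤ 1 / 2) :
    ∃ κ δ : ℝ, 0 < κ ∧ 0 < δ ∧ ∀ᶠ Z : ℝ in atTop, ∀ (A : ℕ) (K : Finset ℤ),
      AdmSq κ B (Real.log Z) (Real.log (Real.log Z)) (ff Z) A K →
      ∀ (α : Fin r → ℝ) (P : Fin n → Polynomial ℝ),
      (∀ j, Z ^ (u j - δ) ≤ |α j| ∧ |α j| ≤ Z ^ (u j + δ)) → (∀ k, (P k).natDegree ≤ D) →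
      ∃ G : Finset ℕ, Z ^ (1 - ε) ≤ (G.card : ℝ) ∧ ∀ p ∈ G, p.Prime ∧ p ≡ b [MOD d] ∧
        Z < p ∧ (p : ℝ) ≤ (1 + ε) * Z ∧
        ∀ k, ∀ h ∈ K,
          Z ^ ε < |((⌊α (φ k) * F (φ k) 0 ((p : ℝ) + σ k) + (P k).eval (p : ℝ)⌋ + h : ℤ) : ℝ)| →
          ∀ q : ℕ, q.Prime → (A : ℤ) <
            |(q : ℤ) - (⌊α (φ k) * F (φ k) 0 ((p : ℝ) + σ k) + (P k).eval (p : ℝ)⌋ + h) ^ 2| := by
  obtain ⟨κ₀, δ, hκ₀, hδ, htr⟩ := transfer hn c u F hSV hcn φ σ hφσ hcard hsp B D d b hd hb ε hε hε1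
  refine ⟨min κ₀ 1, δ, lt_min hκ₀ one_pos, hδ, ?_⟩
  filter_upwards [htr, ev_ff, ev_adm (min κ₀ 1) B (min_le_right _ _) ε hε] with Z htr hff hadm
  intro A K hA α P hα hP
  obtain ⟨hL, hl0, hlL, hR0, hR⟩ := hff
  obtain ⟨G, hG1, hG2⟩ := htr A K
    (AdmSq_mono (min_le_left _ _) (by linarith) hl0 hR0 hA) α P hα hP
  refine ⟨G, hG1, ?_⟩
  intro p hp
  obtain ⟨h1, h2, h3, h4, h5⟩ := hG2 p hp
  refine ⟨h1, h2, h3, h4, ?_⟩
  intro k h hh hu q hq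
  exact iso_of_good (hadm A K ⟨h, hh⟩ hA) hu (fun a ha hsq => h5 k h hh a ha hsq) q hq

/-- The consequence for the next primes after the squares. -/
theorem gaps {r n : ℕ} (hn : 1 ≤ n) (c : Fin r → ℝ) (F : Fin r → ℕ → ℝ → ℝ)
    (hSV : ∀ j, SV (c j) (F j)) (hcn : ∀ j, ∀ n : ℕ, c j ≠ n) (hc0 : ∀ j, 0 < c j)
    (φ : Fin n → Fin r) (σ : Fin n → ℤ) (hφσ : ∀ k l, φ k = φ l → σ k = σ l → k = l)
    (hcard : ∀ j, ((univ.filter (fun k => φ k = j)).card : ℝ) < c j + 1)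
    (hsp : Spread c φ)
    (B d b : ℕ) (hd : 0 < d) (hb : b.Coprime d) (ε : ℝ) (hε : 0 < ε) (hε1 : ε ≤ 1 / 2) :
    ∃ κ : ℝ, 0 < κ ∧ ∀ᶠ Z : ℝ in atTop, ∀ (A : ℕ) (K : Finset ℤ),
      AdmSq κ B (Real.log Z) (Real.log (Real.log Z)) (ff Z) A K →
      ∃ G : Finset ℕ, Z ^ (1 - ε) ≤ (G.card : ℝ) ∧ ∀ p ∈ G, p.Prime ∧ p ≡ b [MOD d] ∧
        Z < p ∧ (p : ℝ) ≤ (1 + ε) * Z ∧
        ∀ k, ∀ h ∈ K, ∀ q : ℕ, q.Prime → (A : ℤ) <
            |(q : ℤ) - (⌊F (φ k) 0 ((p : ℝ) + σ k)⌋ + h) ^ 2| := by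
  choose Dk hDk using fun k => Pool.Agent.N542.PU.sv_size (hSV (φ k)) (hc0 (φ k)) (σ k)
  have hnN : Nonempty (Fin n) := ⟨⟨0, hn⟩⟩
  obtain ⟨km, -, hkm⟩ := Finset.exists_min_image (univ : Finset (Fin n)) (fun k => c (φ k))
    univ_nonempty
  set δ₁ : ℝ := c (φ km) / 4 with hδ₁
  have hδ₁0 : 0 < δ₁ := by have := hc0 (φ km); positivity
  set ε' : ℝ := min ε (δ₁ / 2) with hε'
  have hε'0 : 0 < ε' := lt_min hε (by positivity)
  have hε'1 : ε' ≤ ε := min_le_left _ _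
  have hε'2 : ε' ≤ δ₁ / 2 := min_le_right _ _
  obtain ⟨κ₀, δ, hκ₀, hδ, htr⟩ := isolated hn c (fun _ => 0) F hSV hcn φ σ hφσ
    (by simpa using hcard) (by simpa using hsp) B 0 d b hd hb ε' hε'0 (hε'1.trans hε1)
  refine ⟨min κ₀ 1, lt_min hκ₀ one_pos, ?_⟩
  have hall : ∀ᶠ Z : ℝ in atTop, ∀ k, ∀ t : ℝ, Z < t → t ≤ 2 * Z →
      Z ^ (c (φ k) / 4) ≤ F (φ k) 0 (t + σ k) ∧ F (φ k) 0 (t + σ k) ≤ Z ^ Dk k :=
    eventually_all.2 hDk
  have hlogpow : ∀ᶠ Z : ℝ in atTop, 4 * (Real.log Z) ^ (max B 1) ≤ Z ^ δ₁ := by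
    have h1 : (fun Y : ℝ => (Real.log Y) ^ ((max B 1 : ℕ) : ℝ)) =o[atTop] (fun Y : ℝ => Y ^ δ₁) :=
      isLittleO_log_rpow_rpow_atTop _ hδ₁0
    filter_upwards [h1.def (show (0:ℝ) < 1 / 4 by norm_num), eventually_ge_atTop (1:ℝ)]
      with Y hY hY1
    have hlog := Real.log_nonneg hY1
    rw [Real.norm_eq_abs, Real.norm_eq_abs, abs_of_nonneg (Real.rpow_nonneg hlog _),
      abs_of_nonneg (Real.rpow_nonneg (by linarith) _), Real.rpow_natCast] at hY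
    linarith
  filter_upwards [htr, hall, hlogpow, ev_ff, ev_pow (δ₁ / 2) δ₁ 4 (by linarith),
    (tendsto_rpow_atTop hδ₁0).eventually_ge_atTop 4, eventually_ge_atTop (1:ℝ)]
    with Z htr hall hlp hff hp5 hp4 hZ1
  intro A K hA
  obtain ⟨hL, hl0, hlL, hR0, hR⟩ := hff
  obtain ⟨G, hG1, hG2⟩ := htr A K
    (AdmSq_mono (min_le_left _ _) (by linarith) hl0 hR0 hA) (fun _ => 1) (fun _ => 0) (by
      intro j
      constructor
      · show Z ^ (0 - δ) ≤ |(1 : ℝ)|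
        rw [abs_one]
        exact Real.rpow_le_one_of_one_le_of_nonpos hZ1 (by linarith)
      · show |(1 : ℝ)| ≤ Z ^ (0 + δ)
        rw [abs_one]
        exact Real.one_le_rpow hZ1 (by linarith)) (by intro k; simp)
  refine ⟨G, (Real.rpow_le_rpow_of_exponent_le hZ1 (by linarith)).trans hG1, ?_⟩
  intro p hp
  obtain ⟨h1, h2, h3, h4, h5⟩ := hG2 p hp
  have h4' : (p : ℝ) ≤ (1 + ε) * Z := h4.trans (by nlinarith)
  refine ⟨h1, h2, h3, h4', ?_⟩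
  intro k h hh q hq
  have h6 := h5 k h hh
  simp only [one_mul, eval_zero, add_zero] at h6
  refine h6 ?_ q hq
  obtain ⟨s1, s2⟩ := hall k (p : ℝ) h3 (by nlinarith)
  set y : ℝ := F (φ k) 0 ((p : ℝ) + σ k) with hy
  have hys : Z ^ δ₁ ≤ y := (Real.rpow_le_rpow_of_exponent_le hZ1 (by
    have := hkm k (mem_univ k)
    rw [hδ₁]; linarith)).trans s1
  have hyf : y - 1 < (⌊y⌋ : ℝ) := Int.sub_one_lt_floor y
  have hhb : |(h : ℝ)| ≤ (Real.log Z) ^ (max B 1) := by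
    rcases hA with ⟨g1, g2⟩ | ⟨H, g1, g2, g3⟩
    · exact (g1 h hh).trans (pow_le_pow_right₀ (by linarith) (le_max_left _ _))
    · rw [g1, Finset.mem_Ico] at hh
      have k1' : (0 : ℝ) ≤ h := by exact_mod_cast hh.1
      have k2' : (h : ℝ) ≤ H := by exact_mod_cast hh.2.le
      have k3 : (H : ℝ) ^ 2 ≤ Real.log Z := g2.trans (by
        have : min κ₀ 1 * Real.log Z ≤ 1 * Real.log Z := by gcongr; exact min_le_right _ _
        linarith)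
      have k4 : (H : ℝ) ≤ Real.log Z := by nlinarith
      rw [abs_of_nonneg k1']
      calc (h : ℝ) ≤ (Real.log Z) ^ 1 := by rw [pow_one]; linarith
        _ ≤ _ := pow_le_pow_right₀ (by linarith) (le_max_right _ _)
  have h7 := (abs_le.1 hhb).1
  have h8 : Z ^ ε' ≤ Z ^ (δ₁ / 2) := Real.rpow_le_rpow_of_exponent_le hZ1 hε'2
  have h9 : (0:ℝ) < Z ^ (δ₁ / 2) := Real.rpow_pos_of_pos (by linarith) _
  refine lt_of_lt_of_le ?_ (le_abs_self _)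
  push_cast
  linarith

end Pool.Agent.N542.PV
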