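import Pool.Agent.N542.PV.CovSq
import Pool.Agent.N201.SQ.Main3

set_option autoImplicit false
set_option linter.unusedVariables false

/-! # Neighbourhoods of squares without primes, for well distributed families of vectors

`Pool.Agent.N201.SQ.part1`, `part2`, `part3` (helper201). -/

namespace Pool.Agent.N542.PV

open Polynomial Finset Filter
open Pool.Agent.H378R2.QG (PZ Tc cl w0)
open Pool.Agent.H474R2.PG (rho eval_dvd_congr PR WW WW_eq WW_pos WW_le PR_prime PR_le PR_not_dvd)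
open Pool.Agent.Helper919 (XX)
open Pool.Agent.H256R2.SC (ff)
open Pool.Agent.N201.SQ hiding part1 part2 part3
open Pool.Agent.N201.SQ.An (ana exists_crt)
open Pool.Agent.N542.PU (WellDist)

open Classical in
/-- **Many squares at the same time, general shapes.** -/
theorem part1 (n : ℕ) (hn : 1 ≤ n) (b : ℕ) : ∃ c : ℝ, 0 < c ∧ ∃ Y₀ : ℝ, ∀ Y : ℝ, Y₀ ≤ Y →
    ∀ (K : Finset ℤ) (A : ℤ → ℕ), (∀ k ∈ K, |(k : ℝ)| ≤ (Real.log Y) ^ b) →
    (∑ k ∈ K, (A k : ℝ)) ≤ c * Real.log Y * Real.log (Real.log Y) →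
    ∀ (α : Type) (s₀ : Finset α) (w₀ : α → Fin n → ℤ), s₀.Nonempty → WellDist Y s₀ w₀ →
    ∃ x ∈ s₀, ∀ j₀, ∀ k ∈ K, ∀ a : ℤ, |a| ≤ A k → ¬ IsSquare (-a) →
      ∃ p : ℕ, p.Prime ∧ (p : ℝ) ≤ Y ^ (1 / 10 : ℝ) ∧ (p : ℤ) ∣ (w₀ x j₀ + k) ^ 2 + a := by
  obtain ⟨C₁, hC₁, C₃, hC₃, A₀, hA₀, havg⟩ := avg_cost
  obtain ⟨c₀, hc₀, L₁, hcov⟩ := cov_sq_vec n hn b C₁ hC₁
  obtain ⟨L₂, hev⟩ := ev_main b A₀
  have hA₀R : (2 : ℝ) ≤ A₀ := by exact_mod_cast hA₀
  obtain ⟨c, hc⟩ : ∃ c : ℝ, c = min 1 (c₀ / (2 * C₃ * A₀)) := ⟨_, rfl⟩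
  have hc0 : 0 < c := by rw [hc]; exact lt_min one_pos (by positivity)
  have hc1 : c ≤ 1 := by rw [hc]; exact min_le_left _ _
  have hcc : c ≤ c₀ / (2 * C₃ * A₀) := by rw [hc]; exact min_le_right _ _
  refine ⟨c, hc0, Real.exp (max L₁ (max L₂ 1)), fun Y hY K A hK hA α s₀ w₀ hs₀ hwd => ?_⟩
  have hY0 : 0 < Y := lt_of_lt_of_le (Real.exp_pos _) hY
  obtain ⟨L, hL⟩ : ∃ L, L = Real.log Y := ⟨_, rfl⟩
  have hLmax : max L₁ (max L₂ 1) ≤ L := by
    rw [hL, ← Real.log_exp (max L₁ (max L₂ 1))]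
    exact Real.log_le_log (Real.exp_pos _) hY
  rw [← hL] at hK hA
  have hYexp : Y = Real.exp L := by rw [hL]; exact (Real.exp_log hY0).symm
  obtain ⟨f1, f2, f3, f4, f5, f6, f7⟩ := hev L ((le_max_left _ _).trans ((le_max_right _ _).trans hLmax))
  have hcovL := hcov L ((le_max_left _ _).trans hLmax)
  obtain ⟨l, hl⟩ : ∃ l, l = Real.log L := ⟨_, rfl⟩
  rw [← hl] at hA hcovL
  have hL0 : 0 < L := by linarith
  have hl0 : 0 < l := by rw [hl]; exact Real.log_pos (by linarith)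
  have hlL : l ≤ L := by rw [hl]; exact (Real.log_le_sub_one_of_pos hL0).trans (by linarith)
  -- small primes
  obtain ⟨y, hy⟩ : ∃ y, y = L / 100 := ⟨_, rfl⟩
  have hy0 : 0 ≤ y := by rw [hy]; positivity
  have hlw : l / 2 ≤ Real.log y := by
    have h1 : Real.log y = l - Real.log 100 := by
      rw [hy, Real.log_div (by linarith) (by norm_num), hl]
    have h2 : Real.log 100 = Real.log 10000 / 2 := by
      have : (10000 : ℝ) = 100 ^ 2 := by norm_num
      rw [this, Real.log_pow]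
      push_cast
      ring
    have h3 : Real.log 10000 ≤ l := by rw [hl]; exact Real.log_le_log (by norm_num) f1
    rw [h1, h2]
    linarith
  have hly0 : 0 < Real.log y := by linarith
  -- the shifts
  obtain ⟨K', hK'⟩ : ∃ K', K' = K.filter (fun k => 1 ≤ A k) := ⟨_, rfl⟩
  have hK'm : ∀ k ∈ K', k ∈ K ∧ 1 ≤ A k := fun k hk => by
    rw [hK', Finset.mem_filter] at hk; exact hk
  obtain ⟨A', hA'⟩ : ∃ A' : ℤ → ℕ, A' = fun k => max (A k) A₀ := ⟨_, rfl⟩
  have hA'd : ∀ k, A' k = max (A k) A₀ := fun k => by rw [hA']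
  have hA'A : ∀ k, A k ≤ A' k := fun k => by rw [hA'd]; exact le_max_left _ _
  have hA'0 : ∀ k, A₀ ≤ A' k := fun k => by rw [hA'd]; exact le_max_right _ _
  have hAk : ∀ k ∈ K, (A k : ℝ) ≤ L ^ 2 := by
    intro k hk
    have h1 : (A k : ℝ) ≤ ∑ k ∈ K, (A k : ℝ) :=
      Finset.single_le_sum (f := fun k => (A k : ℝ)) (fun _ _ => Nat.cast_nonneg _) hk
    have h2 : c * L * l ≤ L ^ 2 := by
      calc c * L * l ≤ 1 * L * L := by gcongr
        _ = L ^ 2 := by ring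
    linarith
  have hA'k : ∀ k ∈ K, (A' k : ℝ) ≤ L ^ 2 := by
    intro k hk
    rw [hA'd]
    push_cast
    exact max_le (hAk k hk) f2
  have hA'le : ∀ k ∈ K', (A' k : ℝ) ≤ A₀ * A k := by
    intro k hk
    have h1 : (1 : ℝ) ≤ A k := by exact_mod_cast (hK'm k hk).2
    rw [hA'd]
    push_cast
    apply max_le
    · nlinarith
    · nlinarith
  choose βk hβ1 hβ2 hβ3 using fun k => havg (A' k) (hA'0 k)
  obtain ⟨F, hF⟩ : ∃ F : ℤ → Finset ℤ,
      F = fun k => (Finset.Icc (-(A' k : ℤ)) (A' k)).filter (fun h => ¬ IsSquare (-h)) := ⟨_, rfl⟩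
  have hFd : ∀ k, F k = (Finset.Icc (-(A' k : ℤ)) (A' k)).filter (fun h => ¬ IsSquare (-h)) :=
    fun k => by rw [hF]
  have hFm : ∀ k h, h ∈ F k ↔ |h| ≤ (A' k : ℤ) ∧ ¬ IsSquare (-h) := by
    intro k h
    rw [hFd, Finset.mem_filter, Finset.mem_Icc, abs_le]
  obtain ⟨β, hβ⟩ : ∃ β : ℤ × ℤ → ℝ, β = fun s => βk s.1 s.2 := ⟨_, rfl⟩
  have hβd : ∀ s, β s = βk s.1 s.2 := fun s => by rw [hβ]
  obtain ⟨r, hr⟩ := greedy_i Qd (PR y) (fun p hp => PR_prime hp) (pairs K' F)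
    (fun s => Real.exp (β s))
  obtain ⟨𝒮, h𝒮⟩ : ∃ 𝒮, 𝒮 = (pairs K' F).filter (fun s => ∀ p ∈ PR y, ¬ (p : ℤ) ∣ (Qd s).eval r) :=
    ⟨_, rfl⟩
  have hcost : ∑ s ∈ 𝒮, Real.exp (β s) ≤ c₀ * L := by
    rw [h𝒮]
    refine le_trans (le_of_eq ?_) (hr.trans ?_)
    · congr!
    rw [sum_pairs]
    have h1 : ∀ k ∈ K', ∑ h ∈ F k, (∏ p ∈ PR y, (1 - (rho (Qd (k, h)) p : ℝ) / (p : ℝ))) *
        Real.exp (β (k, h)) ≤ C₃ * (A₀ * A k / (l / 2)) := by
      intro k hk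
      have h2 := hβ3 k y (by rw [hy]; exact f4) (by
        have h3 := hA'k k (hK'm k hk).1
        rw [hy]
        linarith)
      rw [← hFd] at h2
      have h4 : ∑ h ∈ F k, (∏ p ∈ PR y, (1 - (rho (Qd (k, h)) p : ℝ) / (p : ℝ))) *
          Real.exp (β (k, h)) = ∑ h ∈ F k, (∏ p ∈ PR y, (1 - (rho (Qd (0, h)) p : ℝ) / (p : ℝ))) *
            Real.exp (βk k h) := by
        refine Finset.sum_congr rfl fun h _ => ?_
        rw [hβd]
        congr 1
        refine Finset.prod_congr rfl fun p hp => ?_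
        rw [rho_shift_Qd (k, h) (PR_prime hp)]
      rw [h4]
      refine h2.trans ?_
      apply mul_le_mul_of_nonneg_left _ hC₃.le
      apply div_le_div₀ (by positivity) (hA'le k hk) (by positivity) hlw
    refine (Finset.sum_le_sum h1).trans ?_
    rw [← Finset.mul_sum, ← Finset.sum_div, ← Finset.mul_sum]
    have h5 : ∑ k ∈ K', (A k : ℝ) ≤ c * L * l := by
      refine le_trans ?_ hA
      rw [hK']
      exact Finset.sum_le_sum_of_subset_of_nonneg (Finset.filter_subset _ _)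
        (fun _ _ _ => Nat.cast_nonneg _)
    calc C₃ * ((A₀ * ∑ k ∈ K', (A k : ℝ)) / (l / 2))
        ≤ C₃ * (A₀ * (c * L * l) / (l / 2)) := by
          apply mul_le_mul_of_nonneg_left _ hC₃.le
          apply div_le_div_of_nonneg_right _ (by positivity)
          exact mul_le_mul_of_nonneg_left h5 (by positivity)
      _ = 2 * C₃ * A₀ * c * L := by field_simp
      _ ≤ c₀ * L := by
          apply mul_le_mul_of_nonneg_right _ hL0.le
          rw [le_div_iff₀ (by positivity)] at hcc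
          linarith
  have hWle : (WW y : ℝ) ≤ Real.exp (L / 50) := by rw [hy]; exact WW_le hL0.le
  have hWR : (0:ℝ) < WW y := by exact_mod_cast WW_pos y
  obtain ⟨x, hxs, hx3, hx4⟩ := hcovL 𝒮 β
    (by
      intro s hs
      rw [h𝒮, Finset.mem_filter, mem_pairs, hFm] at hs
      obtain ⟨⟨h1, h2, h3⟩, -⟩ := hs
      refine ⟨hK _ (hK'm _ h1).1, ?_, h3⟩
      have h4 : |(s.2 : ℝ)| ≤ A' s.1 := by exact_mod_cast h2
      exact h4.trans (hA'k _ (hK'm _ h1).1))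
    (by
      intro s hs
      rw [h𝒮, Finset.mem_filter, mem_pairs, hFm] at hs
      obtain ⟨⟨h1, h2, h3⟩, -⟩ := hs
      obtain ⟨g1, g2⟩ := hβ1 s.1 s.2
      have hk2 := hA'k _ (hK'm _ h1).1
      have hA'pos : (0 : ℝ) < A' s.1 := by
        have : (A₀ : ℝ) ≤ A' s.1 := by exact_mod_cast hA'0 s.1
        linarith
      refine ⟨by rw [hβd]; exact g1, ?_, ?_⟩
      · rw [hβd]
        refine g2.trans ?_
        have h5 := Real.log_le_log hA'pos hk2
        rw [Real.log_pow, Nat.cast_ofNat, ← hl] at h5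
        linarith
      · intro w hw
        rw [hβd]
        apply hβ2 s.1 s.2 h2 h3 _ _ _ hw
        calc (A' s.1 : ℝ) ^ 2 ≤ (L ^ 2) ^ 2 := pow_le_pow_left₀ hA'pos.le hk2 2
          _ = L ^ 4 := by ring
          _ ≤ L ^ (4 * b + 5) := pow_le_pow_right₀ (by linarith) (by omega))
    hcost Y (WW y) r (WW_pos y)
    (by
      intro p hp hpL
      apply PR_not_dvd hy0 hp
      have h1 : L ≤ L ^ (4 * b + 5) := le_self_pow₀ (by linarith) (by omega)
      rw [hy]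
      linarith)
    hYexp.ge
    (by
      calc (WW y : ℝ) * Real.exp (L / 10) ≤ Real.exp (L / 50) * Real.exp (L / 10) :=
            mul_le_mul_of_nonneg_right hWle (Real.exp_pos _).le
        _ = Real.exp (L / 50 + L / 10) := by rw [← Real.exp_add]
        _ ≤ Y := by
            rw [hYexp]
            exact Real.exp_le_exp.mpr (by linarith))
    α s₀ w₀ hs₀ hwd
  have hYr : Y ^ (1 / 10 : ℝ) = Real.exp (L / 10) := by
    rw [hYexp, ← Real.exp_mul]
    congr 1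
    ring
  refine ⟨x, hxs, ?_⟩
  · intro j₀ k hk a ha hsq
    rw [hYr]
    by_cases hs : (k, a) ∈ 𝒮
    · obtain ⟨p, p1, p2, p3, p4⟩ := hx4 j₀ _ hs
      exact ⟨p, p1, p3, p4⟩
    · have hkA : 1 ≤ A k := by
        by_contra hcon
        have h0 : A k = 0 := by omega
        rw [h0] at ha
        have h1 : a = 0 := by
          have := abs_nonneg a
          have h2 : |a| = 0 := by
            push_cast at ha
            omega
          exact abs_eq_zero.1 h2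
        apply hsq
        rw [h1]
        exact ⟨0, by simp⟩
      have hmem : (k, a) ∈ pairs K' F := by
        rw [mem_pairs, hFm]
        refine ⟨by rw [hK', Finset.mem_filter]; exact ⟨hk, hkA⟩, ?_, hsq⟩
        exact ha.trans (by exact_mod_cast hA'A k)
      rw [h𝒮, Finset.mem_filter, not_and] at hs
      have h1 := hs hmem
      push Not at h1
      obtain ⟨p, hp, hpd⟩ := h1
      refine ⟨p, PR_prime hp, ?_, ?_⟩
      · have h2 := PR_le hy0 hp
        have h3 := Real.add_one_le_exp (L / 10)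
        rw [hy] at h2
        linarith
      · have h2 : (p : ℤ) ∣ w₀ x j₀ - r := by
          refine dvd_trans ?_ (hx3 j₀)
          have : p ∣ WW y := Finset.dvd_prod_of_mem _ hp
          exact_mod_cast this
        have h3 := (eval_dvd_congr (Qd (k, a)) p _ _ h2).2 hpd
        rwa [eval_Qd] at h3

open Classical in
/-- **The neighbourhoods of about `√(log Y)` consecutive squares.** -/
theorem part2 (n : ℕ) (hn : 1 ≤ n) : ∃ Y₀ : ℝ, ∀ Y : ℝ, Y₀ ≤ Y →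
    ∀ (α : Type) (s₀ : Finset α) (w₀ : α → Fin n → ℤ), s₀.Nonempty → WellDist Y s₀ w₀ →
    ∃ x ∈ s₀, ∀ j₀, ∀ k a : ℤ, 16 * (k : ℝ) ^ 2 ≤ Real.log Y →
      2 * |(a : ℝ)| ≤ Real.log Y → ¬ IsSquare (-a) →
      ∃ p : ℕ, p.Prime ∧ (p : ℝ) ≤ Y ^ (1 / 10 : ℝ) ∧ (p : ℤ) ∣ (w₀ x j₀ + k) ^ 2 + a := by
  obtain ⟨C₁, hC₁, C₃, hC₃, A₀, hA₀, havg⟩ := avg_cost
  obtain ⟨c₀, hc₀, L₁, hcov⟩ := cov_sq_vec n hn 1 C₁ hC₁
  obtain ⟨L₂, hev⟩ := ev_main2 A₀ C₁ c₀ L₁ hc₀
  refine ⟨Real.exp (max L₂ 1), fun Y hY α s₀ w₀ hs₀ hwd => ?_⟩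
  have hY0 : 0 < Y := lt_of_lt_of_le (Real.exp_pos _) hY
  obtain ⟨L, hL⟩ : ∃ L, L = Real.log Y := ⟨_, rfl⟩
  have hLmax : max L₂ 1 ≤ L := by
    rw [hL, ← Real.log_exp (max L₂ 1)]
    exact Real.log_le_log (Real.exp_pos _) hY
  rw [← hL]
  have hYexp : Y = Real.exp L := by rw [hL]; exact (Real.exp_log hY0).symm
  obtain ⟨f1, f2, f3, f4⟩ := hev L ((le_max_left _ _).trans hLmax)
  obtain ⟨L', hL'⟩ : ∃ L', L' = L / 10 := ⟨_, rfl⟩
  rw [← hL'] at f3 f4
  have hcovL := hcov L' f3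
  have hL0 : 0 < L := by linarith
  have hL'1 : 1000 ≤ L' := by rw [hL']; linarith
  obtain ⟨l, hl⟩ : ∃ l, l = Real.log L := ⟨_, rfl⟩
  rw [← hl] at f4
  -- the level of the costs
  obtain ⟨A, hA⟩ : ∃ A : ℕ, A = ⌈L⌉₊ := ⟨_, rfl⟩
  have hAL : L ≤ A := by rw [hA]; exact Nat.le_ceil L
  have hAL' : (A : ℝ) ≤ L + 1 := by rw [hA]; exact (Nat.ceil_lt_add_one hL0.le).le
  have hAA : A₀ ≤ A := by
    have : (A₀ : ℝ) ≤ A := f2.trans hAL
    exact_mod_cast this
  obtain ⟨βh, hβ1, hβ2, -⟩ := havg A hAA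
  have hA0 : (0 : ℝ) < A := by linarith
  have hlA : Real.log A ≤ 2 * l := by
    have h1 : (A : ℝ) ≤ L ^ 2 := by nlinarith
    have h2 := Real.log_le_log hA0 h1
    rw [Real.log_pow, Nat.cast_ofNat, ← hl] at h2
    exact h2
  have hlA' : Real.log A ≤ 2 * Real.log L' := by
    have h1 : (A : ℝ) ≤ L' ^ 2 := by rw [hL']; nlinarith
    have h2 := Real.log_le_log hA0 h1
    rw [Real.log_pow, Nat.cast_ofNat] at h2
    exact h2
  -- the colours
  obtain ⟨k₀, hk₀⟩ : ∃ k₀ : ℕ, k₀ = ⌊Real.sqrt L / 4⌋₊ := ⟨_, rfl⟩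
  have hsq0 : 0 ≤ Real.sqrt L := Real.sqrt_nonneg L
  have hsqL : Real.sqrt L ^ 2 = L := Real.sq_sqrt hL0.le
  have hsq100 : 100 ≤ Real.sqrt L := by
    rw [show (100 : ℝ) = Real.sqrt (100 ^ 2) by rw [Real.sqrt_sq (by norm_num)]]
    apply Real.sqrt_le_sqrt
    linarith
  have hk₀le : (k₀ : ℝ) ≤ Real.sqrt L / 4 := by rw [hk₀]; exact Nat.floor_le (by positivity)
  have hkk : ∀ k : ℤ, 16 * (k : ℝ) ^ 2 ≤ L → |k| ≤ (k₀ : ℤ) := by
    intro k hk
    have h1 : |(k : ℝ)| ≤ Real.sqrt L / 4 := by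
      rw [le_div_iff₀ (by norm_num)]
      apply Real.le_sqrt_of_sq_le
      rw [mul_pow, sq_abs]
      linarith
    have h2 : ((k.natAbs : ℕ) : ℝ) ≤ Real.sqrt L / 4 := by
      rw [Nat.cast_natAbs, Int.cast_abs]
      exact h1
    have h3 : k.natAbs ≤ k₀ := by rw [hk₀]; exact Nat.le_floor h2
    rw [Int.abs_eq_natAbs]
    exact_mod_cast h3
  obtain ⟨𝒮, h𝒮⟩ : ∃ 𝒮 : Finset (ℤ × ℤ), 𝒮 = (((Finset.Icc (-(k₀ : ℤ)) k₀).image
      (fun k : ℤ => (k, 1 - k ^ 2))) ∪ ((Finset.Icc (-(k₀ : ℤ)) k₀).image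
      (fun k : ℤ => (k, -1 - k ^ 2)))).filter (fun s => ¬ IsSquare (-s.2)) := ⟨_, rfl⟩
  have h𝒮m : ∀ s : ℤ × ℤ, s ∈ 𝒮 → |s.1| ≤ (k₀ : ℤ) ∧ |s.2| ≤ s.1 ^ 2 + 1 ∧ ¬ IsSquare (-s.2) := by
    intro s hs
    rw [h𝒮, Finset.mem_filter, Finset.mem_union, Finset.mem_image, Finset.mem_image] at hs
    obtain ⟨hs1, hs2⟩ := hs
    rcases hs1 with ⟨k, hk, rfl⟩ | ⟨k, hk, rfl⟩
    · rw [Finset.mem_Icc] at hk
      refine ⟨abs_le.2 hk, ?_, hs2⟩
      show |1 - k ^ 2| ≤ k ^ 2 + 1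
      have := sq_nonneg k
      rw [abs_le]
      constructor <;> linarith
    · rw [Finset.mem_Icc] at hk
      refine ⟨abs_le.2 hk, ?_, hs2⟩
      show |-1 - k ^ 2| ≤ k ^ 2 + 1
      have := sq_nonneg k
      rw [abs_le]
      constructor <;> linarith
  have h𝒮r : ∀ s : ℤ × ℤ, s ∈ 𝒮 → |(s.1 : ℝ)| ≤ Real.sqrt L / 4 ∧ |(s.2 : ℝ)| ≤ L := by
    intro s hs
    obtain ⟨h1, h2, -⟩ := h𝒮m s hs
    have h3 : |(s.1 : ℝ)| ≤ k₀ := by exact_mod_cast h1
    have h4 : |(s.1 : ℝ)| ≤ Real.sqrt L / 4 := h3.trans hk₀le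
    refine ⟨h4, ?_⟩
    have h5 : |(s.2 : ℝ)| ≤ (s.1 : ℝ) ^ 2 + 1 := by exact_mod_cast h2
    have h6 : (s.1 : ℝ) ^ 2 ≤ L / 16 := by
      rw [← sq_abs]
      calc |(s.1 : ℝ)| ^ 2 ≤ (Real.sqrt L / 4) ^ 2 := pow_le_pow_left₀ (abs_nonneg _) h4 2
        _ = L / 16 := by rw [div_pow, hsqL]; norm_num
    linarith
  have hcard : (𝒮.card : ℝ) ≤ 2 * Real.sqrt L := by
    have h1 : 𝒮.card ≤ 2 * (2 * k₀ + 1) := by
      rw [h𝒮]
      refine (Finset.card_filter_le _ _).trans ((Finset.card_union_le _ _).trans ?_)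
      have h2 : ∀ f : ℤ → ℤ × ℤ, ((Finset.Icc (-(k₀ : ℤ)) k₀).image f).card ≤ 2 * k₀ + 1 := by
        intro f
        refine Finset.card_image_le.trans ?_
        rw [Int.card_Icc]
        omega
      have h3 := h2 (fun k : ℤ => (k, 1 - k ^ 2))
      have h4 := h2 (fun k : ℤ => (k, -1 - k ^ 2))
      omega
    have h2 : (𝒮.card : ℝ) ≤ 2 * (2 * k₀ + 1) := by exact_mod_cast h1
    linarith
  have hcost : ∑ s ∈ 𝒮, Real.exp ((fun s : ℤ × ℤ => βh s.2) s) ≤ c₀ * L' := by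
    have h1 : ∀ s ∈ 𝒮, Real.exp ((fun s : ℤ × ℤ => βh s.2) s) ≤ Real.exp (C₁ + l / 10) := by
      intro s _
      apply Real.exp_le_exp.mpr
      have := (hβ1 s.2).2
      show βh s.2 ≤ C₁ + l / 10
      linarith
    refine (Finset.sum_le_sum h1).trans ?_
    rw [Finset.sum_const, nsmul_eq_mul]
    refine le_trans ?_ f4
    have h2 : Real.sqrt L = Real.exp (l / 2) := by
      rw [Real.sqrt_eq_rpow, Real.rpow_def_of_pos hL0, ← hl]
      congr 1
      ring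
    calc (𝒮.card : ℝ) * Real.exp (C₁ + l / 10) ≤ 2 * Real.sqrt L * Real.exp (C₁ + l / 10) :=
          mul_le_mul_of_nonneg_right hcard (Real.exp_pos _).le
      _ = 2 * Real.exp (C₁ + 3 / 5 * l) := by
          rw [h2, mul_assoc, ← Real.exp_add]
          congr 2
          ring
      _ ≤ 4 * Real.exp (C₁ + 3 / 5 * l) := by
          have := Real.exp_pos (C₁ + 3 / 5 * l)
          linarith
  -- the interval
  obtain ⟨y, hy⟩ : ∃ y, y = 3 / 5 * L := ⟨_, rfl⟩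
  have hy0 : 0 ≤ y := by rw [hy]; positivity
  have hWle : (WW y : ℝ) ≤ Real.exp (21 / 25 * L) := by rw [hy]; exact WW_le' hL0.le
  have hWR : (0:ℝ) < WW y := by exact_mod_cast WW_pos y
  obtain ⟨x, hxs, hx3, hx4⟩ := hcovL 𝒮 (fun s => βh s.2)
    (by
      intro s hs
      obtain ⟨h1, h2⟩ := h𝒮r s hs
      refine ⟨?_, ?_, (h𝒮m s hs).2.2⟩
      · rw [pow_one]
        refine h1.trans ?_
        rw [hL']
        have h3 : Real.sqrt L * 100 ≤ L := by nlinarith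
        linarith
      · refine h2.trans ?_
        rw [hL']
        nlinarith)
    (by
      intro s hs
      obtain ⟨h1, h2⟩ := h𝒮r s hs
      obtain ⟨g1, g2⟩ := hβ1 s.2
      refine ⟨g1, ?_, ?_⟩
      · show βh s.2 ≤ C₁ + Real.log L' / 10
        linarith
      · intro w hw
        apply hβ2 s.2 _ (h𝒮m s hs).2.2 _ _ _ hw
        · have h3 : |(s.2 : ℝ)| ≤ A := h2.trans hAL
          exact_mod_cast h3
        · calc (A : ℝ) ^ 2 ≤ (L' ^ 2) ^ 2 := by
                apply pow_le_pow_left₀ hA0.le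
                rw [hL']
                nlinarith
            _ = L' ^ 4 := by ring
            _ ≤ L' ^ (4 * 1 + 5) := pow_le_pow_right₀ (by linarith) (by omega))
    hcost Y (WW y) 0 (WW_pos y)
    (by
      intro p hp hpL
      apply PR_not_dvd hy0 hp
      have h1 : L' ^ 2 ≤ L' ^ (4 * 1 + 5) := pow_le_pow_right₀ (by linarith) (by omega)
      have h2 : y ≤ L' ^ 2 := by
        rw [hy, hL']
        nlinarith
      linarith)
    (by
      rw [hYexp]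
      exact Real.exp_le_exp.mpr (by rw [hL']; linarith))
    (by
      calc (WW y : ℝ) * Real.exp (L' / 10) ≤ Real.exp (21 / 25 * L) * Real.exp (L' / 10) :=
            mul_le_mul_of_nonneg_right hWle (Real.exp_pos _).le
        _ = Real.exp (21 / 25 * L + L' / 10) := by rw [← Real.exp_add]
        _ ≤ Y := by
            rw [hYexp]
            exact Real.exp_le_exp.mpr (by rw [hL']; linarith))
    α s₀ w₀ hs₀ hwd
  have hYr : Y ^ (1 / 10 : ℝ) = Real.exp (L / 10) := by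
    rw [hYexp, ← Real.exp_mul]
    congr 1
    ring
  refine ⟨x, hxs, ?_⟩
  · intro j₀ k a hk ha hsq
    have hx3 := hx3 j₀
    have hx4 := hx4 j₀
    rw [hYr]
    have hkabs := hkk k hk
    rw [sub_zero] at hx3
    by_cases hbig : 2 ≤ |k ^ 2 + a|
    · -- a small prime factor of `k² + a`
      obtain ⟨p, hp, hpd⟩ := Nat.exists_prime_and_dvd (n := (k ^ 2 + a).natAbs) (by
        rw [Int.abs_eq_natAbs] at hbig
        omega)
      have hpd' : (p : ℤ) ∣ k ^ 2 + a := Int.natCast_dvd.2 hpd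
      have hple : (p : ℝ) ≤ y := by
        have h1 : p ≤ (k ^ 2 + a).natAbs := Nat.le_of_dvd (by
          rw [Int.abs_eq_natAbs] at hbig
          omega) hpd
        have h2 : (p : ℝ) ≤ |(k : ℝ) ^ 2 + a| := by
          have h3 : (p : ℤ) ≤ |k ^ 2 + a| := by
            rw [Int.abs_eq_natAbs]
            exact_mod_cast h1
          exact_mod_cast h3
        have h4 : |(k : ℝ) ^ 2 + a| ≤ (k : ℝ) ^ 2 + |(a : ℝ)| := by
          refine (abs_add_le _ _).trans ?_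
          rw [abs_of_nonneg (sq_nonneg _)]
        rw [hy]
        linarith
      have hpW : (p : ℤ) ∣ (WW y : ℤ) := by
        have : p ∈ PR y := by
          unfold PR
          rw [Finset.mem_filter, Finset.mem_Icc]
          exact ⟨⟨hp.one_le, (Nat.le_floor_iff hy0).2 hple⟩, hp⟩
        exact_mod_cast Finset.dvd_prod_of_mem _ this
      refine ⟨p, hp, ?_, ?_⟩
      · have h5 : L + 1 ≤ Real.exp (L / 10) := by
          have h6 := Real.quadratic_le_exp_of_nonneg (x := L / 10) (by positivity)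
          nlinarith
        rw [hy] at hple
        linarith
      · have h7 : (p : ℤ) ∣ w₀ x j₀ := hpW.trans hx3
        have e : (w₀ x j₀ + k) ^ 2 + a = w₀ x j₀ * (w₀ x j₀ + 2 * k) + (k ^ 2 + a) := by ring
        rw [e]
        exact dvd_add (h7.mul_right _) hpd'
    · -- the colours
      push Not at hbig
      have h1 : k ^ 2 + a = 0 ∨ k ^ 2 + a = 1 ∨ k ^ 2 + a = -1 := by
        have h2 := abs_lt.1 hbig
        omega
      rcases h1 with h1 | h1 | h1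
      · exfalso
        apply hsq
        exact ⟨k, by linear_combination -h1⟩
      · have hmem : (k, a) ∈ 𝒮 := by
          rw [h𝒮, Finset.mem_filter, Finset.mem_union]
          refine ⟨Or.inl ?_, hsq⟩
          rw [Finset.mem_image]
          refine ⟨k, Finset.mem_Icc.2 (abs_le.1 hkabs), ?_⟩
          rw [Prod.mk.injEq]
          exact ⟨rfl, by linarith⟩
        obtain ⟨p, p1, p2, p3, p4⟩ := hx4 _ hmem
        refine ⟨p, p1, ?_, p4⟩
        refine p3.trans (Real.exp_le_exp.mpr ?_)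
        rw [hL']
        linarith
      · have hmem : (k, a) ∈ 𝒮 := by
          rw [h𝒮, Finset.mem_filter, Finset.mem_union]
          refine ⟨Or.inr ?_, hsq⟩
          rw [Finset.mem_image]
          refine ⟨k, Finset.mem_Icc.2 (abs_le.1 hkabs), ?_⟩
          rw [Prod.mk.injEq]
          exact ⟨rfl, by linarith⟩
        obtain ⟨p, p1, p2, p3, p4⟩ := hx4 _ hmem
        refine ⟨p, p1, ?_, p4⟩
        refine p3.trans (Real.exp_le_exp.mpr ?_)
        rw [hL']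
        linarith

open Classical in
/-- **The neighbourhoods of record length.** -/
theorem part3 (n : ℕ) (hn : 1 ≤ n) : ∃ c : ℝ, 0 < c ∧ ∃ Y₀ : ℝ, ∀ Y : ℝ, Y₀ ≤ Y →
    ∀ A H : ℕ, 1 ≤ H → Real.log Y / 10 ≤ A → (A : ℝ) * H ≤ c * ff Y →
    (A : ℝ) ≤ (Real.log Y) ^ 2 ∧
    ∀ (α : Type) (s₀ : Finset α) (w₀ : α → Fin n → ℤ), s₀.Nonempty → WellDist Y s₀ w₀ →
    ∃ x ∈ s₀, ∀ j₀, ∀ k : ℕ, k < H → ∀ a : ℤ, |a| ≤ A → ¬ IsSquare (-a) →
      ∃ p : ℕ, p.Prime ∧ (p : ℝ) ≤ Y ^ (1 / 10 : ℝ) ∧ (p : ℤ) ∣ (w₀ x j₀ + k) ^ 2 + a := by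
  obtain ⟨C₁, hC₁, LT, hTL⟩ := T_low
  obtain ⟨c₀, hc₀, L₁, hcov⟩ := cov_sq_vec n hn 1 C₁ hC₁
  obtain ⟨Cs, hCs, y₀, hsv⟩ := surv_k
  obtain ⟨Cr, hCr, hra⟩ := ratio_avg
  obtain ⟨ε, hε⟩ : ∃ ε : ℝ, ε = 5 * c₀ / Real.exp C₁ := ⟨_, rfl⟩
  have hε0 : 0 < ε := by rw [hε]; positivity
  obtain ⟨y₁, hev⟩ := ev_main3 ε hε0
  obtain ⟨c, hc, X₂, hana⟩ := ana (c := c₀ / (2 * Real.exp C₁)) (C := 2 * Cs * Cr)
    (y₀ := max (max y₀ y₁) LT) (by positivity) (by positivity)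
  refine ⟨c, hc, max X₂ (Real.exp (max L₁ 1)), fun Y hY A H hH hA hAH => ?_⟩
  have hYe : Real.exp (max L₁ 1) ≤ Y := (le_max_right _ _).trans hY
  have hY0 : 0 < Y := lt_of_lt_of_le (Real.exp_pos _) hYe
  obtain ⟨L, hL⟩ : ∃ L, L = Real.log Y := ⟨_, rfl⟩
  have hLmax : max L₁ 1 ≤ L := by
    rw [hL, ← Real.log_exp (max L₁ 1)]
    exact Real.log_le_log (Real.exp_pos _) hYe
  have hYexp : Y = Real.exp L := by rw [hL]; exact (Real.exp_log hY0).symm
  obtain ⟨R₀, hR₀⟩ : ∃ R₀ : ℕ, R₀ = ⌊c * ff Y⌋₊ := ⟨_, rfl⟩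
  obtain ⟨y, hy⟩ : ∃ y : ℝ, y = Real.log Y / 10 := ⟨_, rfl⟩
  obtain ⟨a1, a2, a3, a4, a5, a6, a7, a8, a9, a10, a11, a12, a13, a14, a15, a16, a17⟩ :=
    hana Y ((le_max_left _ _).trans hY) y _ hy rfl R₀ hR₀
  have a3' : y₀ ≤ y := ((le_max_left _ _).trans (le_max_left _ _)).trans a3
  have a3'' : y₁ ≤ y := ((le_max_right _ _).trans (le_max_left _ _)).trans a3
  have a3''' : LT ≤ y := (le_max_right _ _).trans a3
  obtain ⟨g1, g2, g3⟩ := hev y a3''
  rw [← hy] at hA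
  rw [← hL] at hy a8 a9 a10
  have hcovL := hcov L ((le_max_left _ _).trans hLmax)
  have hL10 : L = 10 * y := by rw [hy]; ring
  have hL0 : 0 < L := by linarith
  obtain ⟨l, hl⟩ : ∃ l, l = Real.log L := ⟨_, rfl⟩
  rw [← hl] at hcovL
  have hy0 : 0 < y := by linarith
  have hly0 : 0 < Real.log y := Real.log_pos (by linarith)
  -- sizes
  have hAH' : A * H ≤ R₀ := by
    rw [hR₀]
    apply Nat.le_floor
    push_cast
    exact hAH
  have hAHR : (A : ℝ) * H ≤ R₀ := by exact_mod_cast hAH'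
  have hA0 : (0 : ℝ) < A := by linarith
  have hHR : (1 : ℝ) ≤ H := by exact_mod_cast hH
  have hHlog : (H : ℝ) ≤ (Real.log y) ^ 2 := by
    have h1 : y * H ≤ y * (Real.log y) ^ 2 := by
      calc y * H ≤ A * H := mul_le_mul_of_nonneg_right hA (Nat.cast_nonneg _)
        _ ≤ R₀ := hAHR
        _ ≤ _ := a7
    exact le_of_mul_le_mul_left h1 hy0
  have hHA : H ^ 2 ≤ A := by
    have h1 : ((H ^ 2 : ℕ) : ℝ) ≤ A := by
      push_cast
      calc (H : ℝ) ^ 2 ≤ ((Real.log y) ^ 2) ^ 2 := pow_le_pow_left₀ (Nat.cast_nonneg _) hHlog 2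
        _ = (Real.log y) ^ 4 := by ring
        _ ≤ y := g2
        _ ≤ A := hA
    exact_mod_cast h1
  obtain ⟨R, hR⟩ : ∃ R : ℕ, R = A + (H - 1) ^ 2 := ⟨_, rfl⟩
  have hRR₀ : R ≤ R₀ := by
    refine le_trans ?_ hAH'
    rw [hR]
    rcases Nat.lt_or_ge H 2 with h2 | h2
    · have : H = 1 := by omega
      rw [this]
      simp
    · have h3 : (H - 1) ^ 2 ≤ H ^ 2 := Nat.pow_le_pow_left (by omega) 2
      nlinarith
  have hR2A : (R : ℝ) ≤ 2 * A := by
    have h3 : (H - 1) ^ 2 ≤ H ^ 2 := Nat.pow_le_pow_left (by omega) 2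
    have h4 : R ≤ 2 * A := by omega
    exact_mod_cast h4
  have hRA : (A : ℝ) ≤ R := by
    have : A ≤ R := by rw [hR]; exact Nat.le_add_right _ _
    exact_mod_cast this
  have hRR₀' : (R : ℝ) ≤ R₀ := by exact_mod_cast hRR₀
  have hAR₀ : (A : ℝ) ≤ R₀ := hRA.trans hRR₀'
  refine ⟨by rw [← hL]; exact hAR₀.trans a9, ?_⟩
  intro α s₀ w₀ hs₀ hwd
  -- the costs
  obtain ⟨E, hE, hTD⟩ := hTL A (a3'''.trans hA)
  have hlA : 0 < Real.log A := Real.log_pos (by linarith)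
  obtain ⟨βh, hβ⟩ : ∃ βh : ℤ → ℝ, βh = fun h => if -h ∈ E then C₁ + Real.log A / 20 else C₁ := ⟨_, rfl⟩
  have hβd : ∀ h, βh h = if -h ∈ E then C₁ + Real.log A / 20 else C₁ := fun h => by rw [hβ]
  -- the survivors
  obtain ⟨F, hF⟩ : ∃ F : ℤ → Finset ℤ, F = fun k => (Finset.Icc (-(A : ℤ)) A).filter
      (fun h => ¬ IsSquare (-h) ∧ ∀ p : ℕ, p.Prime → (p : ℝ) ≤ y →
        ¬ ((p : ℤ) ∣ ((cl y p : ℤ) + k) ^ 2 + h)) := ⟨_, rfl⟩
  have hFm : ∀ k h, h ∈ F k ↔ |h| ≤ (A : ℤ) ∧ ¬ IsSquare (-h) ∧ ∀ p : ℕ, p.Prime → (p : ℝ) ≤ y →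
        ¬ ((p : ℤ) ∣ ((cl y p : ℤ) + k) ^ 2 + h) := by
    intro k h
    rw [hF]
    simp only
    rw [Finset.mem_filter, Finset.mem_Icc, abs_le]
  obtain ⟨K, hK⟩ : ∃ K : Finset ℤ, K = (Finset.range H).image (fun k : ℕ => (k : ℤ)) := ⟨_, rfl⟩
  have hKm : ∀ k ∈ K, ∃ j : ℕ, j < H ∧ k = (j : ℤ) := by
    intro k hk
    rw [hK, Finset.mem_image] at hk
    obtain ⟨j, hj, rfl⟩ := hk
    exact ⟨j, Finset.mem_range.1 hj, rfl⟩
  obtain ⟨Z, hZ⟩ : ∃ Z, Z = (Real.log (Real.log y)) ^ 2 /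
        ((Real.log y) ^ 2 * Real.log (Real.log (Real.log y))) := ⟨_, rfl⟩
  have hSk : ∀ j < H, ((F (j : ℤ)).card : ℝ) ≤
      Cs * (((2 * j + 1 : ℕ) : ℝ) / (2 * j + 1).totient) * (R * Z) := by
    intro j hj
    have h1 := hsv y a3' R (hA.trans hRA) (hRR₀'.trans a7) A j (by
      rw [hR]
      have : j ^ 2 ≤ (H - 1) ^ 2 := Nat.pow_le_pow_left (by omega) 2
      omega)
    rw [hF, hZ]
    simp only
    rw [mul_div_assoc] at h1
    refine le_trans (le_of_eq ?_) h1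
    congr!
  have hcardK : ∑ k ∈ K, ((F k).card : ℝ) ≤ c₀ / (2 * Real.exp C₁) * L := by
    rw [hK, Finset.sum_image (by intro a _ b _ hab; simpa using hab)]
    have h1 : ∑ j ∈ Finset.range H, ((F (j : ℤ)).card : ℝ) ≤
        ∑ j ∈ Finset.range H, Cs * (((2 * j + 1 : ℕ) : ℝ) / (2 * j + 1).totient) * (R * Z) :=
      Finset.sum_le_sum fun j hj => hSk j (Finset.mem_range.1 hj)
    refine h1.trans ?_
    have h2 : ∑ j ∈ Finset.range H, Cs * (((2 * j + 1 : ℕ) : ℝ) / (2 * j + 1).totient) * (R * Z) =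
        Cs * (∑ j ∈ Finset.range H, (((2 * j + 1 : ℕ) : ℝ) / (2 * j + 1).totient)) * (R * Z) := by
      rw [← Finset.sum_mul, ← Finset.mul_sum]
    rw [h2]
    have hZ0 : 0 ≤ R * Z := by
      have h3 := hSk 0 (by omega)
      have h4 : (0 : ℝ) ≤ ((F ((0 : ℕ) : ℤ)).card : ℝ) := Nat.cast_nonneg _
      have h5 : (0 : ℝ) < Cs * (((2 * 0 + 1 : ℕ) : ℝ) / (2 * 0 + 1).totient) := by
        simp
        exact hCs
      by_contra hcon
      push Not at hcon
      have h6 := mul_neg_of_pos_of_neg h5 hcon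
      exact absurd (h4.trans h3) (not_le.2 h6)
    have hRpos : (0 : ℝ) < R := by linarith
    have hZ0' : 0 ≤ Z := by
      by_contra hcon
      push Not at hcon
      have h6 := mul_neg_of_pos_of_neg hRpos hcon
      linarith
    calc Cs * (∑ j ∈ Finset.range H, (((2 * j + 1 : ℕ) : ℝ) / (2 * j + 1).totient)) * (R * Z)
        ≤ Cs * (Cr * H) * (R * Z) := by
          apply mul_le_mul_of_nonneg_right _ hZ0
          exact mul_le_mul_of_nonneg_left (hra H) hCs.le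
      _ = Cs * Cr * (R * H) * Z := by ring
      _ ≤ Cs * Cr * (2 * R₀) * Z := by
          apply mul_le_mul_of_nonneg_right _ hZ0'
          apply mul_le_mul_of_nonneg_left _ (by positivity)
          calc (R : ℝ) * H ≤ (2 * A) * H := mul_le_mul_of_nonneg_right hR2A (Nat.cast_nonneg _)
            _ = 2 * (A * H) := by ring
            _ ≤ 2 * R₀ := by linarith
      _ = 2 * Cs * Cr * R₀ * (Real.log (Real.log y)) ^ 2 /
            ((Real.log y) ^ 2 * Real.log (Real.log (Real.log y))) := by rw [hZ]; ring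
      _ ≤ c₀ / (2 * Real.exp C₁) * L := a8
  have hcost : ∑ s ∈ pairs K F, Real.exp ((fun s : ℤ × ℤ => βh s.2) s) ≤ c₀ * L := by
    rw [sum_pairs]
    have h1 : ∀ k ∈ K, ∑ h ∈ F k, Real.exp ((fun s : ℤ × ℤ => βh s.2) (k, h)) ≤
        Real.exp C₁ * ((F k).card : ℝ) + Real.exp C₁ * (A : ℝ) ^ (3 / 4 : ℝ) := by
      intro k _
      have h2 : ∀ h ∈ F k, Real.exp ((fun s : ℤ × ℤ => βh s.2) (k, h)) ≤
          Real.exp C₁ + if -h ∈ E then Real.exp C₁ * (A : ℝ) ^ (1 / 20 : ℝ) else 0 := by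
        intro h _
        show Real.exp (βh h) ≤ _
        rw [hβd]
        split_ifs
        · have e4 : Real.exp (C₁ + Real.log A / 20) = Real.exp C₁ * (A : ℝ) ^ (1 / 20 : ℝ) := by
            rw [Real.rpow_def_of_pos hA0, ← Real.exp_add]
            congr 1
            ring
          rw [e4]
          have := Real.exp_pos C₁
          linarith
        · rw [add_zero]
      refine (Finset.sum_le_sum h2).trans ?_
      rw [Finset.sum_add_distrib, Finset.sum_const, nsmul_eq_mul, ← Finset.sum_filter,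
        Finset.sum_const, nsmul_eq_mul]
      have c1 : (((F k).filter (fun h => -h ∈ E)).card : ℝ) ≤ (E.card : ℝ) := by
        have : ((F k).filter (fun h => -h ∈ E)).card ≤ E.card := by
          apply Finset.card_le_card_of_injOn (fun h => -h)
          · intro k hk
            rw [Finset.mem_coe, Finset.mem_filter] at hk
            exact hk.2
          · intro k _ k' _ hkk
            exact neg_injective hkk
        exact_mod_cast this
      have c2 : (((F k).filter (fun h => -h ∈ E)).card : ℝ) *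
          (Real.exp C₁ * (A : ℝ) ^ (1 / 20 : ℝ)) ≤
          (A : ℝ) ^ (7 / 10 : ℝ) * (Real.exp C₁ * (A : ℝ) ^ (1 / 20 : ℝ)) :=
        mul_le_mul_of_nonneg_right (c1.trans hE) (by positivity)
      have c3 : (A : ℝ) ^ (7 / 10 : ℝ) * (Real.exp C₁ * (A : ℝ) ^ (1 / 20 : ℝ)) =
          Real.exp C₁ * (A : ℝ) ^ (3 / 4 : ℝ) := by
        have : (A : ℝ) ^ (3 / 4 : ℝ) = (A : ℝ) ^ (7 / 10 : ℝ) * (A : ℝ) ^ (1 / 20 : ℝ) := by
          rw [← Real.rpow_add hA0]
          norm_num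
        rw [this]
        ring
      rw [c3] at c2
      linarith
    refine (Finset.sum_le_sum h1).trans ?_
    rw [Finset.sum_add_distrib, ← Finset.mul_sum, Finset.sum_const, nsmul_eq_mul]
    have hKc : (K.card : ℝ) = H := by
      rw [hK, Finset.card_image_of_injective _ (fun a b hab => by exact_mod_cast hab),
        Finset.card_range]
    rw [hKc]
    have d1 : Real.exp C₁ * ∑ k ∈ K, ((F k).card : ℝ) ≤ c₀ / 2 * L := by
      calc Real.exp C₁ * ∑ k ∈ K, ((F k).card : ℝ) ≤ Real.exp C₁ * (c₀ / (2 * Real.exp C₁) * L) :=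
            mul_le_mul_of_nonneg_left hcardK (Real.exp_pos _).le
        _ = c₀ / 2 * L := by
            have := (Real.exp_pos C₁).ne'
            field_simp
    have d2 : (H : ℝ) * (Real.exp C₁ * (A : ℝ) ^ (3 / 4 : ℝ)) ≤ c₀ / 2 * L := by
      have e1 : (A : ℝ) ^ (3 / 4 : ℝ) * (A : ℝ) ^ (1 / 4 : ℝ) = A := by
        rw [← Real.rpow_add hA0]
        norm_num
      have e2 : y ^ (3 / 4 : ℝ) * y ^ (1 / 4 : ℝ) = y := by
        rw [← Real.rpow_add hy0]
        norm_num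
      have e3 : y ^ (1 / 4 : ℝ) ≤ (A : ℝ) ^ (1 / 4 : ℝ) :=
        Real.rpow_le_rpow hy0.le hA (by norm_num)
      have e4 : 0 < y ^ (1 / 4 : ℝ) := Real.rpow_pos_of_pos hy0 _
      have e5 : 0 ≤ (A : ℝ) ^ (3 / 4 : ℝ) := Real.rpow_nonneg hA0.le _
      have e6 : (H : ℝ) * (A : ℝ) ^ (3 / 4 : ℝ) * y ^ (1 / 4 : ℝ) ≤
          y ^ (3 / 4 : ℝ) * (Real.log y) ^ 2 * y ^ (1 / 4 : ℝ) := by
        calc (H : ℝ) * (A : ℝ) ^ (3 / 4 : ℝ) * y ^ (1 / 4 : ℝ)
            ≤ (H : ℝ) * (A : ℝ) ^ (3 / 4 : ℝ) * (A : ℝ) ^ (1 / 4 : ℝ) :=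
              mul_le_mul_of_nonneg_left e3 (by positivity)
          _ = A * H := by rw [mul_assoc, e1]; ring
          _ ≤ R₀ := hAHR
          _ ≤ y * (Real.log y) ^ 2 := a7
          _ = (y ^ (3 / 4 : ℝ) * y ^ (1 / 4 : ℝ)) * (Real.log y) ^ 2 := by rw [e2]
          _ = y ^ (3 / 4 : ℝ) * (Real.log y) ^ 2 * y ^ (1 / 4 : ℝ) := by ring
      have e7 : (H : ℝ) * (A : ℝ) ^ (3 / 4 : ℝ) ≤ ε * y :=
        (le_of_mul_le_mul_right e6 e4).trans g3
      calc (H : ℝ) * (Real.exp C₁ * (A : ℝ) ^ (3 / 4 : ℝ))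
          = Real.exp C₁ * ((H : ℝ) * (A : ℝ) ^ (3 / 4 : ℝ)) := by ring
        _ ≤ Real.exp C₁ * (ε * y) := mul_le_mul_of_nonneg_left e7 (Real.exp_pos _).le
        _ = c₀ / 2 * L := by
            rw [hε, hL10]
            have := (Real.exp_pos C₁).ne'
            field_simp
            norm_num
    linarith
  -- the interval
  obtain ⟨P, hP⟩ : ∃ P : ℕ, P = primorial ⌊y⌋₊ := ⟨_, rfl⟩
  have hP0 : 0 < P := by rw [hP]; exact primorial_pos _
  obtain ⟨b0, hb0, hb0'⟩ := exists_crt ⌊y⌋₊ (cl y)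
  have hPR : (0:ℝ) < P := by exact_mod_cast hP0
  rw [← hP] at a11
  have hL1000 : 1000 ≤ L := by linarith
  obtain ⟨x, hxs, hx3, hx4⟩ := hcovL (pairs K F) (fun s => βh s.2)
    (by
      intro s hs
      rw [mem_pairs, hFm] at hs
      obtain ⟨h1, h2, h3, -⟩ := hs
      obtain ⟨j, hj, hsj⟩ := hKm _ h1
      refine ⟨?_, ?_, h3⟩
      · rw [hsj, pow_one, Int.cast_natCast, abs_of_nonneg (Nat.cast_nonneg j)]
        have h4 : (j : ℝ) ≤ H := by exact_mod_cast hj.le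
        have h5 : (H : ℝ) ≤ H ^ 2 := le_self_pow₀ hHR (by norm_num)
        have h6 : (H : ℝ) ^ 2 ≤ (Real.log y) ^ 4 := by
          calc (H : ℝ) ^ 2 ≤ ((Real.log y) ^ 2) ^ 2 := pow_le_pow_left₀ (Nat.cast_nonneg _) hHlog 2
            _ = (Real.log y) ^ 4 := by ring
        linarith
      · have h4 : |(s.2 : ℝ)| ≤ A := by exact_mod_cast h2
        linarith)
    (by
      intro s hs
      rw [mem_pairs, hFm] at hs
      obtain ⟨h1, h2, h3, -⟩ := hs
      refine ⟨?_, ?_, ?_⟩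
      · show 0 ≤ βh s.2
        rw [hβd]
        split_ifs <;> linarith
      · show βh s.2 ≤ C₁ + l / 10
        have h4 : Real.log A ≤ 2 * l := by
          have h5 := Real.log_le_log hA0 (hAR₀.trans a9)
          rw [Real.log_pow, Nat.cast_ofNat, ← hl] at h5
          exact h5
        have hl0 : 0 ≤ l := by rw [hl]; exact Real.log_nonneg (by linarith)
        rw [hβd]
        split_ifs <;> linarith
      · intro w hw
        show -(βh s.2) ≤ _
        have h4 : |((-s.2 : ℤ) : ℝ)| ≤ (A : ℝ) ^ (11 / 10 : ℝ) := by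
          push_cast
          rw [abs_neg]
          have h2 : |(s.2 : ℝ)| ≤ A := by exact_mod_cast h2
          refine h2.trans ?_
          conv_lhs => rw [← Real.rpow_one (A : ℝ)]
          exact Real.rpow_le_rpow_of_exponent_le (by linarith) (by norm_num)
        obtain ⟨t1, t2⟩ := hTD (-s.2) h3 h4
        have h5 : (A : ℝ) ^ 2 ≤ L ^ (4 * 1 + 5) := by
          calc (A : ℝ) ^ 2 ≤ (L ^ 2) ^ 2 := pow_le_pow_left₀ hA0.le (hAR₀.trans a9) 2
            _ = L ^ 4 := by ring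
            _ ≤ L ^ (4 * 1 + 5) := pow_le_pow_right₀ (by linarith) (by omega)
        rw [hβd]
        split_ifs with hin
        · exact t1 _ w h5 hw
        · exact t2 hin _ w h5 hw)
    hcost Y P b0 hP0
    (by
      intro p hp hpL hpd
      rw [hP, primorial, Prime.dvd_finsetProd_iff hp.prime] at hpd
      obtain ⟨p', hp', hpp'⟩ := hpd
      rw [Finset.mem_filter, Finset.mem_range] at hp'
      have h4 : p = p' := (Nat.prime_dvd_prime_iff_eq hp hp'.2).1 hpp'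
      have h5 : (p : ℝ) ≤ y := by
        have : p ≤ ⌊y⌋₊ := by omega
        calc (p : ℝ) ≤ (⌊y⌋₊ : ℝ) := by exact_mod_cast this
          _ ≤ y := Nat.floor_le a4
      have h6 : L ≤ L ^ (4 * 1 + 5) := le_self_pow₀ (by linarith) (by omega)
      linarith)
    hYexp.ge
    (by
      have h1 : Real.exp (L / 10) ≤ Y ^ (1 / 2 : ℝ) := by
        rw [hYexp, ← Real.exp_mul]
        exact Real.exp_le_exp.mpr (by linarith)
      have h2 : Y ^ (1 / 2 : ℝ) * Y ^ (1 / 2 : ℝ) = Y := by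
        rw [← Real.rpow_add hY0]; norm_num
      have h3 : 0 < Y ^ (1 / 2 : ℝ) := Real.rpow_pos_of_pos hY0 _
      calc (P : ℝ) * Real.exp (L / 10) ≤ Y ^ (1 / 2 : ℝ) * Y ^ (1 / 2 : ℝ) :=
            mul_le_mul (by linarith) h1 (Real.exp_pos _).le h3.le
        _ = Y := h2)
    α s₀ w₀ hs₀ hwd
  have hYr : Y ^ (1 / 10 : ℝ) = Real.exp (L / 10) := by
    rw [hYexp, ← Real.exp_mul]
    congr 1
    ring
  refine ⟨x, hxs, ?_⟩
  · intro j₀ k hk a ha hsq
    have hx3 := hx3 j₀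
    have hx4 := hx4 j₀
    rw [hYr]
    by_cases hs : ((k : ℤ), a) ∈ pairs K F
    · obtain ⟨p, p1, p2, p3, p4⟩ := hx4 _ hs
      exact ⟨p, p1, p3, p4⟩
    · rw [mem_pairs, hFm] at hs
      have hkK : (k : ℤ) ∈ K := by
        rw [hK, Finset.mem_image]
        exact ⟨k, Finset.mem_range.2 hk, rfl⟩
      have h1 : ∃ p : ℕ, p.Prime ∧ (p : ℝ) ≤ y ∧ ((p : ℤ) ∣ ((cl y p : ℤ) + k) ^ 2 + a) := by
        by_contra hcon
        push Not at hcon
        exact hs ⟨hkK, ha, hsq, hcon⟩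
      obtain ⟨p, hp1, hp2, hp3⟩ := h1
      have hpy : p ≤ ⌊y⌋₊ := Nat.le_floor hp2
      have hpP : (p : ℤ) ∣ (P : ℤ) := by
        rw [hP, primorial]
        have : p ∈ (Finset.range (⌊y⌋₊ + 1)).filter Nat.Prime := by
          rw [Finset.mem_filter, Finset.mem_range]
          exact ⟨by omega, hp1⟩
        exact_mod_cast Finset.dvd_prod_of_mem _ this
      have h1 : (p : ℤ) ∣ w₀ x j₀ - b0 := hpP.trans hx3
      have h2 : (p : ℤ) ∣ (b0 : ℤ) - (cl y p : ℤ) := by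
        have := hb0' p hp1 hpy
        exact (Nat.modEq_iff_dvd.mp this.symm)
      have h3 : (p : ℤ) ∣ w₀ x j₀ - (cl y p : ℤ) := by
        have := dvd_add h1 h2
        have e : w₀ x j₀ - b0 + ((b0 : ℤ) - (cl y p : ℤ)) = w₀ x j₀ - (cl y p : ℤ) := by ring
        rwa [e] at this
      refine ⟨p, hp1, ?_, ?_⟩
      · have h5 := Real.add_one_le_exp (L / 10)
        have h6 : L / 10 = y := by rw [hy]
        linarith
      · have h4 := dvd_add (Dvd.dvd.mul_right h3 (w₀ x j₀ + 2 * k + (cl y p : ℤ))) hp3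
        have e : (w₀ x j₀ - (cl y p : ℤ)) * (w₀ x j₀ + 2 * k + (cl y p : ℤ)) + (((cl y p : ℤ) + k) ^ 2 + a) =
            (w₀ x j₀ + k) ^ 2 + a := by ring
        rwa [e] at h4

end Pool.Agent.N542.PV
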