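import Pool.Agent.N542.PV.Parts
import Pool.Agent.N542.PU.Real2

set_option autoImplicit false
set_option maxHeartbeats 4000000

/-! # Squares near the integral parts of the members of a family of real vectors -/

namespace Pool.Agent.N542.PV

open Finset Filter Topology
open Pool.Agent.H469R2.NK (e norm_e e_add)
open Pool.Agent.W147.PS (ff ff_compare ev_pow)
open Pool.Agent.N542.PU (WellDist wellDist_exp)

open scoped Classical

/-- the shifts `K` and the radius `A` are admissible -/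
def AdmSq (κ : ℝ) (b : ℕ) (L l R : ℝ) (A : ℕ) (K : Finset ℤ) : Prop :=
  ((∀ h ∈ K, |(h : ℝ)| ≤ L ^ b) ∧ (A : ℝ) * K.card ≤ κ * L * l) ∨
    ∃ H : ℕ, K = Ico (0 : ℤ) H ∧ (H : ℝ) ^ 2 ≤ κ * L ∧ ((A : ℝ) ≤ κ * L ∨ (A : ℝ) * H ≤ κ * R)

/-- all the numbers `(v j + k)² + a`, `k ∈ K`, `|a| ≤ A`, `-a` not a square, have a prime factor `≤ y` -/
def GoodSq {n : ℕ} (K : Finset ℤ) (A : ℕ) (y : ℝ) (v : Fin n → ℤ) : Prop :=
  ∀ j, ∀ k ∈ K, ∀ a : ℤ, |a| ≤ A → ¬ IsSquare (-a) →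
    ∃ p : ℕ, p.Prime ∧ (p : ℝ) ≤ y ∧ (p : ℤ) ∣ (v j + k) ^ 2 + a

theorem rect_vec (n : ℕ) (hn : 1 ≤ n) (b : ℕ) :
    ∃ c : ℝ, 0 < c ∧ ∃ Y₀ : ℝ, ∀ Y : ℝ, Y₀ ≤ Y → ∀ (A : ℕ) (K : Finset ℤ),
      AdmSq c b (Real.log Y) (Real.log (Real.log Y)) (ff Y) A K →
      ∀ (α : Type) (s₀ : Finset α) (w₀ : α → Fin n → ℤ), s₀.Nonempty → WellDist Y s₀ w₀ →
      ∃ x ∈ s₀, GoodSq K A (Y ^ (1 / 10 : ℝ)) (w₀ x) := by
  obtain ⟨c₁, hc₁, Y₁, h1⟩ := part1 n hn b
  obtain ⟨Y₂, h2⟩ := part2 n hn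
  obtain ⟨c₃, hc₃, Y₃, h3⟩ := part3 n hn
  obtain ⟨c, hc⟩ : ∃ c : ℝ, c = min (1 / 16) (min c₁ c₃) := ⟨_, rfl⟩
  have hc0 : 0 < c := by rw [hc]; exact lt_min (by norm_num) (lt_min hc₁ hc₃)
  have hc1 : c ≤ 1 / 16 := by rw [hc]; exact min_le_left _ _
  have hcc₁ : c ≤ c₁ := by rw [hc]; exact (min_le_right _ _).trans (min_le_left _ _)
  have hcc₃ : c ≤ c₃ := by rw [hc]; exact (min_le_right _ _).trans (min_le_right _ _)
  have t1 : Tendsto (fun Y : ℝ => Real.log Y) atTop atTop := Real.tendsto_log_atTop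
  have t2 : Tendsto (fun Y : ℝ => Real.log (Real.log Y)) atTop atTop := t1.comp t1
  obtain ⟨Y₄, h4⟩ := eventually_atTop.mp ((t1.eventually_ge_atTop 1).and (t2.eventually_ge_atTop 1))
  refine ⟨c, hc0, max (max Y₁ Y₂) (max Y₃ Y₄), ?_⟩
  intro Y hY A K hadm α s₀ w₀ hs₀ hwd
  have hY1 : Y₁ ≤ Y := ((le_max_left _ _).trans (le_max_left _ _)).trans hY
  have hY2 : Y₂ ≤ Y := ((le_max_right _ _).trans (le_max_left _ _)).trans hY
  have hY3 : Y₃ ≤ Y := ((le_max_left _ _).trans (le_max_right _ _)).trans hY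
  have hY4 : Y₄ ≤ Y := ((le_max_right _ _).trans (le_max_right _ _)).trans hY
  obtain ⟨hL1, hl1⟩ := h4 Y hY4
  obtain ⟨L, hL⟩ : ∃ L, L = Real.log Y := ⟨_, rfl⟩
  rw [← hL] at hL1 hl1 hadm
  have hL0 : 0 < L := by linarith
  rcases hadm with ⟨hK, hAK⟩ | ⟨H, hKI, hH2, hA⟩
  · obtain ⟨x, hx, hx2⟩ := h1 Y hY1 K (fun _ => A) (by rw [← hL]; exact hK) (by
      rw [Finset.sum_const, nsmul_eq_mul, ← hL]
      calc (K.card : ℝ) * A = A * K.card := by ring
        _ ≤ c * L * Real.log L := hAK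
        _ ≤ c₁ * L * Real.log L := by gcongr) α s₀ w₀ hs₀ hwd
    exact ⟨x, hx, hx2⟩
  · have hK : ∀ k ∈ K, 0 ≤ k ∧ k < H := by
      intro k hk
      rw [hKI, Finset.mem_Ico] at hk
      exact hk
    have small : 2 * (A : ℝ) ≤ L → ∃ x ∈ s₀, GoodSq K A (Y ^ (1 / 10 : ℝ)) (w₀ x) := by
      intro h2A
      obtain ⟨x, hx, hx2⟩ := h2 Y hY2 α s₀ w₀ hs₀ hwd
      refine ⟨x, hx, fun j k hk a ha hsq => hx2 j k a ?_ ?_ hsq⟩
      · rw [← hL]
        obtain ⟨k1, k2⟩ := hK k hk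
        have k1' : (0 : ℝ) ≤ k := by exact_mod_cast k1
        have k2' : (k : ℝ) ≤ H := by exact_mod_cast k2.le
        have h5 : (k : ℝ) ^ 2 ≤ (H : ℝ) ^ 2 := pow_le_pow_left₀ k1' k2' 2
        nlinarith
      · rw [← hL]
        have h4 : |(a : ℝ)| ≤ A := by exact_mod_cast ha
        linarith
    rcases hA with hA | hA
    · exact small (by nlinarith)
    · rcases lt_or_ge (A : ℝ) (L / 10) with h10 | h10
      · exact small (by linarith)
      · rcases Nat.eq_zero_or_pos H with hH0 | hHpos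
        · obtain ⟨x, hx⟩ := hs₀
          refine ⟨x, hx, fun j k hk => ?_⟩
          have := hK k hk
          rw [hH0] at this
          omega
        · have hA0 : (0 : ℝ) < A := by linarith
          have hHR : (1 : ℝ) ≤ H := by exact_mod_cast hHpos
          have hff0 : 0 < ff Y := by
            by_contra hcon
            push Not at hcon
            have h5 := mul_nonpos_of_nonneg_of_nonpos hc0.le hcon
            have h6 : 0 < (A : ℝ) * H := by positivity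
            linarith
          have hff : (A : ℝ) * H ≤ c₃ * Pool.Agent.H256R2.SC.ff Y := by
            calc (A : ℝ) * H ≤ c * ff Y := hA
              _ ≤ c₃ * ff Y := mul_le_mul_of_nonneg_right hcc₃ hff0.le
              _ = _ := rfl
          obtain ⟨g1, g2⟩ := h3 Y hY3 A H hHpos (by rw [← hL]; exact h10) hff
          obtain ⟨x, hx, hx2⟩ := g2 α s₀ w₀ hs₀ hwd
          refine ⟨x, hx, fun j k hk a ha hsq => ?_⟩
          obtain ⟨k1, k2⟩ := hK k hk
          obtain ⟨i, rfl⟩ := Int.eq_ofNat_of_zero_le k1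
          exact hx2 j i (by exact_mod_cast k2) a ha hsq

theorem scaled (d : ℕ) (hd : 1 ≤ d) (b : ℕ) (η : ℝ)
    (h0 : 0 < η) (h1 : η ≤ 1) : ∃ κ : ℝ, 0 < κ ∧ ∀ᶠ M : ℝ in atTop, ∀ (A : ℕ) (K : Finset ℤ),
    AdmSq κ b (Real.log M) (Real.log (Real.log M)) (ff M) A K →
    ∀ (α : Type) (s : Finset α) (a : α → Fin d → ℝ), s.Nonempty →
    (∀ q : ℕ, 1 ≤ q → (q : ℝ) ≤ M ^ η → ∀ h : Fin d → ℤ, h ≠ 0 → (∀ j, |(h j : ℝ)| ≤ M ^ η) →
      ‖∑ i ∈ s, e (∑ j, (h j : ℝ) * (a i j / q))‖ ≤ s.card * M ^ (-η)) →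
    ∃ i ∈ s, GoodSq K A (M ^ η) (fun j => ⌊a i j⌋) := by
  obtain ⟨c, hc0, X₀, hc⟩ := rect_vec d hd (b + 1)
  obtain ⟨X₁, hw⟩ := wellDist_exp d hd
  have hr1 : (1 : ℝ) ≤ d := by exact_mod_cast hd
  set θ : ℝ := η / (20 * (d : ℝ) ^ 2) with hθ
  have hr2 : (1 : ℝ) ≤ (d : ℝ) ^ 2 := one_le_pow₀ hr1
  have hθ0 : 0 < θ := by positivity
  have hθη : θ ≤ η := div_le_self h0.le (by linarith)
  have hθ1 : θ ≤ 1 := hθη.trans h1
  set θ' : ℝ := θ * (2 / 5) with hθ'
  have hθ'0 : 0 < θ' := by positivity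
  have hθ'1 : θ' ≤ 1 := by linarith
  refine ⟨c * (θ' / 32), by positivity, ?_⟩
  have t1 : Tendsto (fun M : ℝ => Real.log M) atTop atTop := Real.tendsto_log_atTop
  have t2 : Tendsto (fun M : ℝ => Real.log (Real.log M)) atTop atTop := t1.comp t1
  filter_upwards [(tendsto_rpow_atTop hθ'0).eventually_ge_atTop X₀,
    (tendsto_rpow_atTop hθ0).eventually_ge_atTop X₁,
    eventually_ge_atTop (1 : ℝ), t1.eventually_ge_atTop (1 / θ' ^ (b + 1)),
    t1.eventually_ge_atTop 3, t2.eventually_ge_atTop 1,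
    t2.eventually_ge_atTop (-(2 * Real.log θ')), ff_compare θ' hθ'0 hθ'1]
    with M hMX hMX1 hM1 hMl hM3 hMl1 hMll hMf
  intro A K hadm α s a hs hE
  have hM0 : 0 < M := by linarith
  have hmono : ∀ x y : ℝ, x ≤ y → M ^ x ≤ M ^ y := fun x y h =>
    Real.rpow_le_rpow_of_exponent_le hM1 h
  have hwd := hw (M ^ θ) hMX1 α s a (by
    intro q hq hqX h hh hhX
    refine (hE q hq (hqX.trans ?_) h hh (fun j => (hhX j).trans ?_)).trans (le_of_eq ?_)
    · rw [← Real.rpow_mul hM0.le]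
      apply hmono
      linarith
    · rw [← Real.rpow_natCast, ← Real.rpow_mul hM0.le]
      apply hmono
      push_cast
      have e1 : θ * (10 * (d : ℝ)) * (2 * d) = η := by rw [hθ]; field_simp; norm_num
      have e2 : 0 ≤ θ * (10 * (d : ℝ)) := by positivity
      nlinarith
    · rw [← Real.rpow_mul hM0.le]
      congr 2
      rw [hθ]
      field_simp)
  rw [← Real.rpow_mul hM0.le] at hwd
  have hlog : Real.log (M ^ θ') = θ' * Real.log M := Real.log_rpow hM0 _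
  have hl0 : 0 < Real.log M := by linarith
  have hff0 : 0 < ff M := by linarith [hMf.1]
  have hff : θ' / 32 * ff M ≤ ff (M ^ θ') := (hMf.2 (M ^ θ') le_rfl (by
    calc M ^ θ' ≤ M ^ (2 : ℝ) := hmono _ _ (by linarith)
      _ = M ^ 2 := by norm_num)).1
  have hlin : c * (θ' / 32) * Real.log M ≤ c * Real.log (M ^ θ') := by
    rw [hlog]
    have : 0 ≤ c * (θ' * Real.log M) := by positivity
    nlinarith
  have hadm' : AdmSq c (b + 1) (Real.log (M ^ θ')) (Real.log (Real.log (M ^ θ'))) (ff (M ^ θ')) A K := by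
    rcases hadm with ⟨hK, hAK⟩ | ⟨H, hKI, hH2, hA⟩
    · left
      constructor
      · intro t ht
        refine (hK t ht).trans ?_
        rw [hlog, mul_pow, pow_succ (Real.log M)]
        have e1 : 1 ≤ θ' ^ (b + 1) * Real.log M := by
          rwa [div_le_iff₀' (by positivity)] at hMl
        have e2 : (0:ℝ) ≤ (Real.log M) ^ b := by positivity
        nlinarith
      · refine hAK.trans ?_
        rw [hlog, Real.log_mul hθ'0.ne' hl0.ne']
        have e3 : Real.log (Real.log M) / 2 ≤ Real.log θ' + Real.log (Real.log M) := by linarith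
        calc c * (θ' / 32) * Real.log M * Real.log (Real.log M)
            = c * (θ' * Real.log M) * (Real.log (Real.log M) / 32) := by ring
          _ ≤ c * (θ' * Real.log M) * (Real.log (Real.log M) / 2) := by
              apply mul_le_mul_of_nonneg_left _ (by positivity)
              linarith
          _ ≤ _ := mul_le_mul_of_nonneg_left e3 (by positivity)
    · right
      refine ⟨H, hKI, hH2.trans hlin, ?_⟩
      rcases hA with hA | hA
      · exact Or.inl (hA.trans hlin)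
      · right
        refine hA.trans ?_
        calc c * (θ' / 32) * ff M = c * (θ' / 32 * ff M) := by ring
          _ ≤ _ := mul_le_mul_of_nonneg_left hff hc0.le
  obtain ⟨i, hi, hi2⟩ := hc (M ^ θ') hMX A K hadm' α s _ hs hwd
  refine ⟨i, hi, fun j k hk t ht hsq => ?_⟩
  obtain ⟨p, hp, hp1, hp2⟩ := hi2 j k hk t ht hsq
  refine ⟨p, hp, hp1.trans ?_, hp2⟩
  rw [← Real.rpow_mul hM0.le]
  apply hmono
  linarith

/-- many members -/
theorem many (d : ℕ) (hd : 1 ≤ d) (b : ℕ) (η : ℝ)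
    (hη : 0 < η) (hη1 : η ≤ 1) :
    ∃ κ : ℝ, 0 < κ ∧ ∀ᶠ Z : ℝ in atTop, ∀ (A : ℕ) (K : Finset ℤ),
      AdmSq κ b (Real.log Z) (Real.log (Real.log Z)) (ff Z) A K →
      ∀ (α : Type) (s : Finset α) (x : α → Fin d → ℝ), s.Nonempty →
      (∀ q : ℕ, 1 ≤ q → (q : ℝ) ≤ Z ^ η → ∀ h : Fin d → ℤ, h ≠ 0 → (∀ j, |(h j : ℝ)| ≤ Z ^ η) →
        ‖∑ i ∈ s, e (∑ j, (h j : ℝ) * (x i j / q))‖ ≤ s.card * Z ^ (-η)) →
      ∃ G ⊆ s, (s.card : ℝ) * Z ^ (-η) ≤ (G.card : ℝ) ∧
        ∀ i ∈ G, GoodSq K A (Z ^ η) (fun j => ⌊x i j⌋) := by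
  obtain ⟨κ, hκ, hcrit⟩ := scaled d hd b (η / 2) (by positivity) (by linarith)
  refine ⟨κ, hκ, ?_⟩
  filter_upwards [hcrit, eventually_ge_atTop (1 : ℝ), ev_pow (-η) (-(η / 2)) 4 (by linarith),
    ev_pow (-(η / 2)) 0 4 (by linarith)] with Z hcr hZ1 hp1 hp2
  rw [Real.rpow_zero] at hp2
  intro A K hadm ι' s x hs hsum
  have hZ0 : 0 < Z := by linarith
  have hspos : (0 : ℝ) < s.card := by exact_mod_cast Finset.card_pos.mpr hs
  have hmono : Z ^ (η / 2) ≤ Z ^ η := Real.rpow_le_rpow_of_exponent_le hZ1 (by linarith)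
  set G : Finset ι' := s.filter (fun i => GoodSq K A (Z ^ η) (fun j => ⌊x i j⌋)) with hG
  have hGs : G ⊆ s := filter_subset _ _
  have hkey : (s.card : ℝ) * Z ^ (-(η / 2)) / 2 ≤ G.card := by
    by_contra hlt
    rw [not_le] at hlt
    set t : Finset ι' := s \ G with ht
    have htcard : (t.card : ℝ) = s.card - G.card := by
      rw [ht, card_sdiff_of_subset hGs, Nat.cast_sub (card_le_card hGs)]
    have htbig : 3 / 4 * (s.card : ℝ) ≤ t.card := by
      rw [htcard]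
      nlinarith
    obtain ⟨i, hi, hi2⟩ := hcr A K hadm ι' t x (by
        rw [← Finset.card_pos]
        have : (0 : ℝ) < t.card := by linarith
        exact_mod_cast this) (by
        intro q hq hqZ h hh hhZ
        have h1 := hsum q hq (hqZ.trans hmono) h hh (fun j => (hhZ j).trans hmono)
        have h2 : ∑ i ∈ t, e (∑ j, (h j : ℝ) * (x i j / q)) =
            ∑ i ∈ s, e (∑ j, (h j : ℝ) * (x i j / q)) -
            ∑ i ∈ G, e (∑ j, (h j : ℝ) * (x i j / q)) := by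
          rw [ht, ← sum_sdiff hGs]
          ring
        rw [h2]
        have h3 : ‖∑ i ∈ G, e (∑ j, (h j : ℝ) * (x i j / q))‖ ≤ G.card := by
          refine (norm_sum_le _ _).trans ?_
          simp only [norm_e, sum_const, nsmul_eq_mul, mul_one]
          exact le_rfl
        have h4 : 3 / 4 * (s.card : ℝ) * Z ^ (-(η / 2)) ≤ t.card * Z ^ (-(η / 2)) := by gcongr
        calc _ ≤ _ := norm_sub_le _ _
          _ ≤ s.card * Z ^ (-η) + G.card := add_le_add h1 h3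
          _ ≤ _ := by nlinarith)
    rw [ht] at hi
    have hi3 := Finset.mem_sdiff.mp hi
    apply hi3.2
    rw [hG, mem_filter]
    refine ⟨hi3.1, fun j k hk u hu hsq => ?_⟩
    obtain ⟨p, hp, hp1, hp2⟩ := hi2 j k hk u hu hsq
    exact ⟨p, hp, hp1.trans hmono, hp2⟩
  refine ⟨G, hGs, ?_, ?_⟩
  · nlinarith
  · intro i hi
    rw [hG, mem_filter] at hi
    exact hi.2

end Pool.Agent.N542.PV
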